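import Pool.Agent.N218.RQ.Rel
import Pool.Agent.N975.RQ.Ps

/-!
# RQ: factors of a fundamental discriminant, auxiliary facts
-/

set_option autoImplicit false

open Finset

namespace Pool.Agent.N218.RQ

open Pool.Agent.N969.RQ
open Pool.Agent.N969.P15 (un V3 tw Qc)

theorem fd_pair {D a b : ℕ} (hD : Fd D) (h : D = a * b) (ha : Squarefree a) (ha4 : a % 4 = 1)
    (ha1 : 1 < a) (hb1 : 1 < b) : Fd a ∧ Fd b := by
  refine ⟨⟨ha1, Or.inl ⟨ha, ha4⟩⟩, hb1, ?_⟩
  rcases hD.2 with ⟨h1, h2⟩ | ⟨M, hM, h1, h2⟩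
  · left
    refine ⟨h1.squarefree_of_dvd (Dvd.intro_left _ h.symm), ?_⟩
    rw [h, Nat.mul_mod, ha4, one_mul, Nat.mod_mod] at h2
    exact h2
  · right
    have hc : Nat.Coprime a 4 := by
      have h3 : Nat.Coprime 2 a := (Nat.Prime.coprime_iff_not_dvd Nat.prime_two).2 (by omega)
      rw [show (4 : ℕ) = 2 ^ 2 from rfl]
      exact (Nat.Coprime.pow_left 2 h3).symm
    obtain ⟨k, hk⟩ : a ∣ M := hc.dvd_of_dvd_mul_left (by rw [← hM, h]; exact Dvd.intro _ rfl)
    refine ⟨k, ?_, h1.squarefree_of_dvd (Dvd.intro_left _ hk.symm), ?_⟩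
    · apply Nat.eq_of_mul_eq_mul_left (show 0 < a by omega)
      rw [← h, hM, hk]
      ring
    · have : M % 4 = k % 4 := by rw [hk, Nat.mul_mod, ha4, one_mul, Nat.mod_mod]
      rwa [this] at h2

theorem fd_both {D d : ℕ} (hD : Fd D) (hd : Un D d) (hs : sgd D d = 1) (h1 : d ≠ 1) (h2 : d ≠ D) :
    Fd d ∧ Fd (D / d) := by
  obtain ⟨o1, o2⟩ := odd_part hD hd hs
  have hD0 : 0 < D := by have := hD.1; omega
  have hprod : d * (D / d) = D := Nat.mul_div_cancel' hd.1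
  have hd0 : 0 < d := Nat.pos_of_ne_zero fun h => by rw [h, zero_mul] at hprod; omega
  have he0 : 0 < D / d := Nat.pos_of_ne_zero fun h => by rw [h, mul_zero] at hprod; omega
  have he1 : D / d ≠ 1 := fun h => h2 (by rw [h, mul_one] at hprod; exact hprod)
  by_cases h : 2 ∣ d
  · rw [if_pos h] at o1 o2
    exact (fd_pair hD (by rw [mul_comm]; exact hprod.symm) o1 o2 (by omega) (by omega)).symm
  · rw [if_neg h] at o1 o2
    exact fd_pair hD hprod.symm o1 o2 (by omega) (by omega)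

theorem un_one (D : ℕ) : Un D 1 := ⟨one_dvd D, Nat.coprime_one_left _⟩

theorem sgd_one (D : ℕ) : sgd D 1 = 1 := by
  unfold sgd
  rw [Nat.primeFactors_one, prod_empty]

/-- the product over the primes different from `r` -/
theorem lcr_mul {n m p r : ℕ} (hr : r.Prime) (hrm : r ∣ m) (hr2 : r ≠ 2) (hrp : r ≠ p) (hm : m ≠ 0) :
    (if Odd (m.factorization p) then
      tw n m * ∏ q ∈ (m.primeFactors.erase 2).erase p, Pool.Agent.Z700.fac n m q else 0) =
      Pool.Agent.Z700.fac n m r * lcr n m p r := by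
  unfold lcr
  by_cases h : Odd (m.factorization p)
  · rw [if_pos h, if_pos h]
    have hmem : r ∈ (m.primeFactors.erase 2).erase p := by
      rw [mem_erase, mem_erase, Nat.mem_primeFactors]
      exact ⟨hrp, hr2, hr, hrm, hm⟩
    rw [← mul_prod_erase _ _ hmem]
    ring
  · rw [if_neg h, if_neg h, mul_zero]

/-- the local factor at a prime dividing exactly once -/
theorem fac_two {n n' m r : ℕ} {t : ℤ} (hr : r.Prime) (hf : m.factorization r = 1)
    (hm : (m : ℤ) = n * n' - t ^ 2) (hrt : (r : ℤ) ∣ t)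
    (h : (¬ r ∣ n ∧ jacobiSym (-(n : ℤ)) r = 1) ∨ (r ∣ n ∧ jacobiSym (-(n' : ℤ)) r = 1 ∧
      ¬ r * r ∣ n)) : Pool.Agent.Z700.fac n m r = 2 := by
  unfold Pool.Agent.Z700.fac
  rcases h with ⟨h1, h2⟩ | ⟨h1, h2, h3⟩
  · rw [if_neg h1, hf, h2]
    norm_num
  · rw [if_pos h1]
    unfold Pool.Agent.Z700.hh
    rw [hf, if_neg (by decide), pow_one]
    obtain ⟨k, hk⟩ := h1
    obtain ⟨s, hs⟩ := hrt
    have hr0 : 0 < r := hr.pos
    have hrz : (r : ℤ) ≠ 0 := by exact_mod_cast hr.ne_zero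
    have hm' : (m : ℤ) = r * (k * n' - r * s ^ 2) := by
      rw [hm, hk, hs]
      push_cast
      ring
    obtain ⟨c, hc⟩ : r ∣ m := by
      have : (r : ℤ) ∣ m := ⟨_, hm'⟩
      exact_mod_cast this
    have hcz : (c : ℤ) = k * n' - r * s ^ 2 := by
      apply mul_left_cancel₀ hrz
      rw [← hm', hc]
      push_cast
      ring
    have e1 : n / r = k := by rw [hk]; exact Nat.mul_div_cancel_left _ hr0
    have e2 : m / r = c := by rw [hc]; exact Nat.mul_div_cancel_left _ hr0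
    rw [e1, e2]
    have e3 : jacobiSym (-((k * c : ℕ) : ℤ)) r = jacobiSym (k * k * (-(n' : ℤ))) r := by
      apply jacobiSym.mod_left'
      apply (Int.modEq_iff_dvd.2 _)
      refine ⟨-(k * s ^ 2), ?_⟩
      push_cast
      rw [hcz]
      ring
    have hk2 : jacobiSym (k : ℤ) r ^ 2 = 1 := by
      apply jacobiSym.sq_one
      rw [Int.gcd_natCast_natCast]
      refine ((Nat.Prime.coprime_iff_not_dvd hr).2 fun h4 => h3 ?_).symm
      obtain ⟨j, hj⟩ := h4
      exact ⟨j, by rw [hk, hj]; ring⟩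
    rw [e3, jacobiSym.mul_left, jacobiSym.mul_left, h2]
    linear_combination hk2

theorem jac_ne {n r : ℕ} (hr : r.Prime) (h : jacobiSym n r ≠ 0) : ¬ r ∣ n := by
  intro h'
  apply h
  have : NeZero r := ⟨hr.ne_zero⟩
  rw [jacobiSym.eq_zero_iff_not_coprime, Int.gcd_natCast_natCast]
  intro h3
  have := Nat.dvd_gcd h' (dvd_refl r)
  rw [h3] at this
  exact hr.one_lt.ne' (Nat.dvd_one.1 this)

theorem jac_zero {n r : ℕ} (hr : r.Prime) (h : r ∣ n) : jacobiSym n r = 0 := by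
  by_contra h'
  exact jac_ne hr h' h

/-- there is no nontrivial factorization of a prime -/
theorem qc_prime {l : ℕ} (hl : l.Prime) : Qc l := by
  intro b c hbc _ _
  rcases (Nat.dvd_prime hl).1 (Dvd.intro c hbc) with h | h
  · exact Or.inl h
  · right
    have : l * c = l * 1 := by
      have h5 : b * c = l := hbc
      rw [h] at h5
      rw [mul_one]
      exact h5
    exact Nat.eq_of_mul_eq_mul_left hl.pos this

/-- the factor at the ramified prime -/
theorem fact_one {D l r m : ℕ} {t : ℤ} (hD : Fd D) (hr : r.Prime) (hr2 : r ≠ 2) (hrD : r ∣ D)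
    (hrl : ¬ r ∣ l) (hm0 : 0 < m) (hm : (m : ℤ) = D * l ^ 2 - t ^ 2) (hrm : r ∣ m) :
    (r : ℤ) ∣ t ∧ m.factorization r = 1 := by
  have hrp : Prime (r : ℤ) := Nat.prime_iff_prime_int.1 hr
  have hrz : (r : ℤ) ≠ 0 := by exact_mod_cast hr.ne_zero
  have h1 : (r : ℤ) ∣ t := by
    apply hrp.dvd_of_dvd_pow (n := 2)
    have h2 : (r : ℤ) ∣ m := by exact_mod_cast hrm
    have h3 : (r : ℤ) ∣ D := by exact_mod_cast hrD
    have h4 : t ^ 2 = D * l ^ 2 - m := by rw [hm]; ring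
    rw [h4]
    exact dvd_sub (h3.mul_right _) h2
  refine ⟨h1, ?_⟩
  obtain ⟨s, hs⟩ := h1
  obtain ⟨k, hk⟩ := hrD
  have hnk : ¬ r ∣ k := by
    rintro ⟨j, hj⟩
    exact Pool.Agent.N975.RQ.fd_sq hD hr hr2 ⟨j, by rw [hk, hj]; ring⟩
  obtain ⟨c, hc⟩ := hrm
  have hcz : (c : ℤ) = k * l ^ 2 - r * s ^ 2 := by
    apply mul_left_cancel₀ hrz
    have : ((r * c : ℕ) : ℤ) = D * l ^ 2 - t ^ 2 := by rw [← hc, hm]
    push_cast at this
    rw [this, hk, hs]
    push_cast
    ring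
  have hnc : ¬ r ∣ c := by
    intro h
    have h2 : (r : ℤ) ∣ c := by exact_mod_cast h
    rw [hcz] at h2
    have h3 : (r : ℤ) ∣ k * l ^ 2 := by
      have := dvd_add h2 (Dvd.intro (s ^ 2) rfl : (r : ℤ) ∣ r * s ^ 2)
      rwa [sub_add_cancel] at this
    rcases hrp.dvd_or_dvd h3 with h4 | h4
    · exact hnk (by exact_mod_cast h4)
    · exact hrl (by exact_mod_cast hrp.dvd_of_dvd_pow h4)
  have hc0 : c ≠ 0 := by
    rintro rfl
    rw [mul_zero] at hc
    omega
  rw [hc, Nat.factorization_mul hr.ne_zero hc0, Finsupp.add_apply, hr.factorization_self,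
    Nat.factorization_eq_zero_of_not_dvd hnc]

end Pool.Agent.N218.RQ
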