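import Pool.Agent.N969.RQ.Defs2

/-!
# RQ: the signed numbers of pairs of vectors of norms `d l`, `(D / d) l` vanish (levels `3`, `5`)
-/

set_option autoImplicit false

open Finset

namespace Pool.Agent.N218.RQ

open Pool.Agent.N969.RQ
open Pool.Agent.N969.P15 (un V3 tw)
open Pool.Agent.N969.P17G (starP)
open Pool.Agent.Z700 (fac)

/-! ### the sign of the prime discriminants -/

theorem sign_star {D p : ℕ} (hp : p.Prime) (h2 : p ≠ 2) :
    Int.sign (starP D p) = ZMod.χ₄ (p : ZMod 4) := by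
  unfold starP
  rw [if_neg h2]
  have hodd : p % 2 = 1 := hp.eq_two_or_odd.resolve_left h2
  have hpos := hp.pos
  rcases (by omega : p % 4 = 1 ∨ p % 4 = 3) with h | h
  · rw [if_pos h, ZMod.χ₄_nat_one_mod_four h]
    exact Int.sign_eq_one_of_pos (by exact_mod_cast hpos)
  · rw [if_neg (by omega), ZMod.χ₄_nat_three_mod_four h]
    exact Int.sign_eq_neg_one_of_neg (by
      have : (0 : ℤ) < p := by exact_mod_cast hpos
      linarith)

theorem prod_sign {D k : ℕ} (hs : Squarefree k) (h2 : ¬ 2 ∣ k) :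
    ∏ p ∈ k.primeFactors, Int.sign (starP D p) = ZMod.χ₄ (k : ZMod 4) := by
  have e : (k : ZMod 4) = ∏ p ∈ k.primeFactors, (p : ZMod 4) := by
    conv_lhs => rw [← Nat.prod_primeFactors_of_squarefree hs]
    rw [Nat.cast_prod]
  rw [e, map_prod]
  refine prod_congr rfl fun p hp => sign_star (Nat.prime_of_mem_primeFactors hp) ?_
  rintro rfl
  exact h2 (Nat.dvd_of_mem_primeFactors hp)

theorem chi_one {k : ℕ} (h2 : ¬ 2 ∣ k) (h : ZMod.χ₄ (k : ZMod 4) = 1) : k % 4 = 1 := by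
  rcases (by omega : k % 4 = 1 ∨ k % 4 = 3) with h4 | h4
  · exact h4
  · rw [ZMod.χ₄_nat_three_mod_four h4] at h
    exact absurd h (by decide)

theorem pf_two_pow {a k : ℕ} (ha : a = 4 ∨ a = 8) (hk : k ≠ 0) :
    (a * k).primeFactors = insert 2 k.primeFactors := by
  have h1 : a.primeFactors = {2} := by
    rcases ha with rfl | rfl
    · rw [show (4 : ℕ) = 2 ^ 2 from rfl]
      exact Nat.primeFactors_prime_pow (by norm_num) (by norm_num)
    · rw [show (8 : ℕ) = 2 ^ 3 from rfl]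
      exact Nat.primeFactors_prime_pow (by norm_num) (by norm_num)
  rw [Nat.primeFactors_mul (by omega) hk, h1]
  rfl

/-- the odd one of `d`, `D / d` is squarefree and `≡ 1 mod 4` -/
theorem odd_part {D d : ℕ} (hD : Fd D) (hd : Un D d) (hs : sgd D d = 1) :
    Squarefree (if 2 ∣ d then D / d else d) ∧ (if 2 ∣ d then D / d else d) % 4 = 1 := by
  obtain ⟨e, he⟩ := hd.1
  have hD0 : 0 < D := by have := hD.1; omega
  have hd0 : 0 < d := Nat.pos_of_ne_zero fun h => by rw [h, zero_mul] at he; omega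
  have hdiv : D / d = e := by rw [he]; exact Nat.mul_div_cancel_left _ hd0
  have hcop : Nat.Coprime d e := by have := hd.2; rwa [hdiv] at this
  rw [hdiv]
  by_cases h2 : 2 ∣ d
  · rw [if_pos h2]
    have h2e : ¬ 2 ∣ e := fun h => by
      have := Nat.dvd_gcd h2 h
      rw [hcop] at this
      omega
    have he0 : e ≠ 0 := fun h => h2e (by rw [h]; exact dvd_zero 2)
    obtain ⟨M, hM, hMs, hM4⟩ : ∃ M : ℕ, D = 4 * M ∧ Squarefree M ∧ (M % 4 = 2 ∨ M % 4 = 3) := by
      rcases hD.2 with h | h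
      · exfalso
        have : 2 ∣ D := by rw [he]; exact h2.mul_right e
        omega
      · exact h
    have main : ∀ a M' : ℕ, (a = 4 ∨ a = 8) → D = a * M' → Squarefree M' → ¬ 2 ∣ M' →
        Int.sign (starP D 2) = ZMod.χ₄ (M' : ZMod 4) → Squarefree e ∧ e % 4 = 1 := by
      intro a M' ha hDa hs' h2M hsg
      have hc : Nat.Coprime a e := by
        have h3 : Nat.Coprime 2 e := (Nat.Prime.coprime_iff_not_dvd Nat.prime_two).2 h2e
        rcases ha with rfl | rfl
        · exact Nat.Coprime.pow_left 2 h3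
        · exact Nat.Coprime.pow_left 3 h3
      obtain ⟨k, hk⟩ : a ∣ d := hc.dvd_of_dvd_mul_right (by rw [← he, hDa]; exact Dvd.intro _ rfl)
      have ha0 : 0 < a := by omega
      have hMk : M' = k * e := by
        apply Nat.eq_of_mul_eq_mul_left ha0
        rw [← hDa, he, hk]
        ring
      have hks : Squarefree k := hs'.squarefree_of_dvd ⟨e, hMk⟩
      have hes : Squarefree e := hs'.squarefree_of_dvd ⟨k, by rw [hMk]; ring⟩
      have h2k : ¬ 2 ∣ k := fun h => h2M (by rw [hMk]; exact h.mul_right e)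
      refine ⟨hes, chi_one h2e ?_⟩
      have hk2 : 2 ∉ k.primeFactors := fun h => h2k (Nat.dvd_of_mem_primeFactors h)
      have h5 : sgd D d = Int.sign (starP D 2) * ZMod.χ₄ (k : ZMod 4) := by
        unfold sgd
        rw [hk, pf_two_pow ha hks.ne_zero, prod_insert hk2, prod_sign hks h2k]
      rw [hs, hsg, hMk, Nat.cast_mul, map_mul] at h5
      have h6 : ZMod.χ₄ (k : ZMod 4) * ZMod.χ₄ (k : ZMod 4) = 1 := by
        rcases (by omega : k % 4 = 1 ∨ k % 4 = 3) with h | h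
        · rw [ZMod.χ₄_nat_one_mod_four h]; rfl
        · rw [ZMod.χ₄_nat_three_mod_four h]; rfl
      linear_combination -h5 - (ZMod.χ₄ (e : ZMod 4)) * h6
    rcases hM4 with h | h
    · obtain ⟨u, rfl⟩ : 2 ∣ M := by omega
      refine main 8 u (Or.inr rfl) (by rw [hM]; ring)
        (hMs.squarefree_of_dvd (Dvd.intro_left 2 rfl)) (by omega) ?_
      unfold starP
      rw [if_pos rfl, if_neg (by omega)]
      rcases (by omega : u % 4 = 1 ∨ u % 4 = 3) with h4 | h4
      · rw [if_pos (by omega), ZMod.χ₄_nat_one_mod_four h4]; rfl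
      · rw [if_neg (by omega), ZMod.χ₄_nat_three_mod_four h4]; rfl
    · refine main 4 M (Or.inl rfl) hM hMs (by omega) ?_
      unfold starP
      rw [if_pos rfl, if_pos (by omega), ZMod.χ₄_nat_three_mod_four h]
      rfl
  · rw [if_neg h2]
    have hds : Squarefree d := by
      rcases hD.2 with h | ⟨M, hM, hMs, -⟩
      · exact h.1.squarefree_of_dvd hd.1
      · refine hMs.squarefree_of_dvd ?_
        have hc : Nat.Coprime d 4 := by
          have : Nat.Coprime d (2 ^ 2) := Nat.Coprime.pow_right 2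
            ((Nat.Prime.coprime_iff_not_dvd Nat.prime_two).2 h2).symm
          exact this
        have h3 := hd.1
        rw [hM] at h3
        exact hc.dvd_of_dvd_mul_left h3
    refine ⟨hds, chi_one h2 ?_⟩
    rw [← prod_sign (D := D) hds h2]
    exact hs

/-- the other one of `d l`, `(D / d) l` -/
def nn' (D d l : ℕ) : ℕ := if 2 ∣ d then d * l else D / d * l

theorem nn_facts {D d l : ℕ} (hD : Fd D) (hd : Un D d) (hs : sgd D d = 1) (hl : l.Prime)
    (hl4 : l % 4 = 3) (hDl : jacobiSym D l = -1) :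
    Squarefree (nn D d l) ∧ nn D d l % 4 = 3 ∧ nn D d l * nn' D d l = D * l ^ 2 := by
  obtain ⟨h1, h2⟩ := odd_part hD hd hs
  have hlD : ¬ l ∣ D := by
    intro h
    have : jacobiSym D l = 0 := by
      have : NeZero l := ⟨hl.ne_zero⟩
      rw [jacobiSym.eq_zero_iff_not_coprime, Int.gcd_natCast_natCast]
      intro h3
      have := Nat.dvd_gcd h (dvd_refl l)
      rw [h3] at this
      exact hl.one_lt.ne' (Nat.dvd_one.1 this)
    rw [this] at hDl
    norm_num at hDl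
  have hprod : d * (D / d) = D := Nat.mul_div_cancel' hd.1
  have hcl : ∀ k : ℕ, k ∣ D → Nat.Coprime k l := fun k hk =>
    ((Nat.Prime.coprime_iff_not_dvd hl).2 fun h => hlD (h.trans hk)).symm
  unfold nn nn'
  by_cases h : 2 ∣ d
  · rw [if_pos h] at h1 h2
    rw [if_pos h, if_pos h]
    refine ⟨(Nat.squarefree_mul (hcl _ (Nat.div_dvd_of_dvd hd.1))).2 ⟨h1, hl.squarefree⟩, ?_, ?_⟩
    · rw [Nat.mul_mod, h2, hl4]
    · calc D / d * l * (d * l) = (d * (D / d)) * l ^ 2 := by ring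
        _ = D * l ^ 2 := by rw [hprod]
  · rw [if_neg h] at h1 h2
    rw [if_neg h, if_neg h]
    refine ⟨(Nat.squarefree_mul (hcl _ hd.1)).2 ⟨h1, hl.squarefree⟩, ?_, ?_⟩
    · rw [Nat.mul_mod, h2, hl4]
    · calc d * l * (D / d * l) = (d * (D / d)) * l ^ 2 := by ring
        _ = D * l ^ 2 := by rw [hprod]

/-- the assembly -/
theorem core {p D d l : ℕ} {κ : ℤ} {li : ℤ} {c : ℤ → ℤ → ℤ → ℕ}
    (hsym : ∀ a b c' : ℤ, c a b c' = c c' b a)
    (hPC : ∀ (n1 n2 : ℕ) (b : ℤ) (m : ℕ), Squarefree n1 → n1 % 4 = 3 → ¬ p ∣ n1 →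
      0 < m → (m : ℤ) = n1 * n2 - b ^ 2 → (c n1 b n2 : ℤ) = κ * lcp n1 m p)
    (hL : S_LOW) (hC1 : S_C1J) (hC2 : S_C2Jp) (hp : p = 3 ∨ p = 5 ∨ p = 7)
    (hD : Fd D) (hDp : jacobiSym D p = 1) (hd : Un D d) (hs : sgd D d = 1) (hl : l.Prime)
    (hl4 : l % 4 = 3) (hlp : l ≠ p) (hDl : jacobiSym D l = -1)
    (hdl : jacobiSym (-((d * l : ℕ) : ℤ)) p = -1)
    (hw : ∀ a b : ℤ, (p : ℤ) ∣ a - b → op p a = op p b) (hli : (p : ℤ) ∣ l * li - 1) :
    Pool.Agent.N969.RQ.ST p D l (fun t _ => op p (t * li) * jacobiSym (2 * t) l *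
      (c (d * l : ℕ) t (D / d * l : ℕ) : ℤ)) = 0 := by
  have hpp : p.Prime := by rcases hp with rfl | rfl | rfl <;> norm_num
  have hl2 : l ≠ 2 := by rintro rfl; omega
  have hlp' : ¬ l ∣ p := fun h => hlp ((Nat.prime_dvd_prime_iff_eq hl hpp).1 h)
  have h1 := hC1 p (op p) D d l li hpp.pos hD hd hl hl2 hlp' hDl hw hli
  have h2 : ∑ u ∈ un l, jacobiSym u l * J p (op p) D d u l = 0 := by
    refine sum_eq_zero fun u _ => ?_
    rw [hL p hp D d hD hDp hd hs u l (by exact_mod_cast hl.ne_zero), mul_zero]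
  rw [h2] at h1
  obtain ⟨f1, f2, f3⟩ := nn_facts hD hd hs hl hl4 hDl
  have hnp : ∀ k : ℕ, (jacobiSym k p ≠ 0) → ¬ p ∣ k := by
    intro k hk h
    apply hk
    have : NeZero p := ⟨hpp.ne_zero⟩
    rw [jacobiSym.eq_zero_iff_not_coprime, Int.gcd_natCast_natCast]
    intro h3
    have := Nat.dvd_gcd h (dvd_refl p)
    rw [h3] at this
    exact hpp.one_lt.ne' (Nat.dvd_one.1 this)
  have hpD : ¬ p ∣ D := hnp D (by rw [hDp]; norm_num)
  have hpl : ¬ p ∣ l := fun h => hlp ((Nat.prime_dvd_prime_iff_eq hpp hl).1 h).symm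
  have hpn : ¬ p ∣ nn D d l := by
    intro h
    have h5 : p ∣ D * l ^ 2 := by rw [← f3]; exact h.mul_right _
    rcases (Nat.Prime.dvd_mul hpp).1 h5 with h6 | h6
    · exact hpD h6
    · exact hpl (hpp.dvd_of_dvd_pow h6)
  have key : Pool.Agent.N969.RQ.ST p D l (fun t _ => op p (t * li) * jacobiSym (2 * t) l *
      (c (d * l : ℕ) t (D / d * l : ℕ) : ℤ)) =
      -κ * Pool.Agent.N969.RQ.ST p D l (fun t m => op p (t * li) * jacobiSym (2 * t) l * W p D d l (m / 4)) := by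
    unfold Pool.Agent.N969.RQ.ST
    rw [mul_sum]
    refine sum_congr rfl fun t ht => ?_
    rw [mem_filter] at ht
    obtain ⟨-, ht1, ht2⟩ := ht
    beta_reduce
    by_cases htl : (l : ℤ) ∣ t
    · have : jacobiSym (2 * t) l = 0 := by
        have : NeZero l := ⟨hl.ne_zero⟩
        rw [jacobiSym.eq_zero_iff_not_coprime]
        intro h3
        have h4 : (l : ℤ) ∣ Int.gcd (2 * t) l := Int.dvd_coe_gcd (htl.mul_left 2) (dvd_refl _)
        rw [h3] at h4
        have h5 : l ∣ 1 := by exact_mod_cast h4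
        exact hl.one_lt.ne' (Nat.dvd_one.1 h5)
      rw [this]
      ring
    · set m : ℕ := (((D * l ^ 2 : ℕ) : ℤ) - t ^ 2).toNat with hm
      have hmz : (m : ℤ) = ((D * l ^ 2 : ℕ) : ℤ) - t ^ 2 := Int.toNat_of_nonneg (by linarith)
      have hm0 : 0 < m := by
        have : (0 : ℤ) < m := by rw [hmz]; linarith
        exact_mod_cast this
      have hmz' : (m : ℤ) = D * l ^ 2 - t ^ 2 := by rw [hmz]; push_cast; ring
      have h4p : 4 * p ∣ m := by
        have : ((4 * p : ℕ) : ℤ) ∣ (m : ℤ) := by rw [hmz]; exact ht2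
        exact_mod_cast this
      have e1 := hC2 p hp D d l hD hDp hd hs hl hl4 hlp hDl hdl t m hm0 hmz' htl h4p
      have e2 : (c (d * l : ℕ) t (D / d * l : ℕ) : ℤ) = κ * lcp (nn D d l) m p := by
        rw [← hPC (nn D d l) (nn' D d l) t m f1 f2 hpn hm0 (by
          rw [hmz']
          have : ((nn D d l * nn' D d l : ℕ) : ℤ) = ((D * l ^ 2 : ℕ) : ℤ) := by rw [f3]
          push_cast at this
          rw [this])]
        unfold nn nn'
        by_cases h : 2 ∣ d
        · rw [if_pos h, if_pos h, hsym]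
        · rw [if_neg h, if_neg h]
      rw [e1, e2]
      ring
  rw [key, ← h1, mul_zero]

theorem sym21 (a b c : ℤ) : N877.P21.cp a b c = N877.P21.cp c b a := by
  unfold N877.P21.cp
  refine card_bij (fun q _ => (q.2, q.1)) ?_ ?_ ?_
  · rintro ⟨v, w⟩ h
    rw [mem_filter, mem_product] at h ⊢
    refine ⟨⟨h.1.2, h.1.1⟩, ?_⟩
    rw [← h.2]
    unfold N877.P21.ip
    ring
  · rintro ⟨v, w⟩ _ ⟨v', w'⟩ _ h
    simp only [Prod.mk.injEq] at h
    rw [h.1, h.2]
  · rintro ⟨v, w⟩ h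
    rw [mem_filter, mem_product] at h
    refine ⟨(w, v), ?_, rfl⟩
    rw [mem_filter, mem_product]
    refine ⟨⟨h.1.2, h.1.1⟩, ?_⟩
    rw [← h.2]
    unfold N877.P21.ip
    ring

theorem sym15 (a b c : ℤ) : Pool.Agent.N969.P15.cp a b c = Pool.Agent.N969.P15.cp c b a := by
  unfold Pool.Agent.N969.P15.cp
  refine card_bij (fun q _ => (q.2, q.1)) ?_ ?_ ?_
  · rintro ⟨v, w⟩ h
    rw [mem_filter, mem_product] at h ⊢
    refine ⟨⟨h.1.2, h.1.1⟩, ?_⟩
    rw [← h.2]
    unfold Pool.Agent.N969.P15.ip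
    ring
  · rintro ⟨v, w⟩ _ ⟨v', w'⟩ _ h
    simp only [Prod.mk.injEq] at h
    rw [h.1, h.2]
  · rintro ⟨v, w⟩ h
    rw [mem_filter, mem_product] at h
    refine ⟨(w, v), ?_, rfl⟩
    rw [mem_filter, mem_product]
    refine ⟨⟨h.1.2, h.1.1⟩, ?_⟩
    rw [← h.2]
    unfold Pool.Agent.N969.P15.ip
    ring

theorem o3_mod (a b : ℤ) (h : (3 : ℤ) ∣ a - b) : o3 a = o3 b := by
  unfold o3
  apply jacobiSym.mod_left'
  omega

theorem o5_mod (a b : ℤ) (h : (5 : ℤ) ∣ a - b) : o5 a = o5 b := by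
  unfold o5
  have : a % 5 = b % 5 := by omega
  rw [this]

/-- **EISJ3** -/
theorem t_EISJ3 (hL : S_LOW) (hC1 : S_C1J) (hC2 : S_C2Jp) (hPC : N877.P21.S_PC) : S_EISJ3 := by
  intro D d l hD hD3 hd hs hl hl4 hl3 hDl hdl
  have hDp : jacobiSym D 3 = 1 := by
    have : jacobiSym D 3 = jacobiSym 1 3 := by
      apply jacobiSym.mod_left'
      omega
    rw [this, jacobiSym.one_left]
  have hop : op 3 = o3 := by
    unfold op
    rw [if_neg (by norm_num), if_pos rfl]
  have h3l : ¬ (3 : ℤ) ∣ l := fun h => by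
    have h' : 3 ∣ l := by exact_mod_cast h
    exact hl3 ((Nat.prime_dvd_prime_iff_eq Nat.prime_three hl).1 h').symm
  have := core (p := 3) (κ := 12) (li := (l : ℤ)) (c := N877.P21.cp) sym21
    (fun n1 n2 b m h1 h2 h3 h4 h5 => hPC n1 n2 b m h1 h2 h3 h4 h5)
    hL hC1 hC2 (Or.inl rfl) hD hDp hd hs hl hl4 hl3 hDl hdl
    (fun a b h => by rw [hop]; exact o3_mod a b h) (by
      push_cast
      have h5 : (l : ℤ) % 3 = 1 ∨ (l : ℤ) % 3 = 2 := by omega
      have h6 : ((l : ℤ) * l) % 3 = 1 := by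
        rcases h5 with h | h <;> rw [Int.mul_emod, h] <;> norm_num
      omega)
  rw [hop] at this
  exact this

/-- **EISJ5** -/
theorem t_EISJ5 (hL : S_LOW) (hC1 : S_C1J) (hC2 : S_C2Jp) (hPC : Pool.Agent.N969.P15.S_PC) : S_EISJ5 := by
  intro D d l hD hD5 hd hs hl hl4 hDl hdl
  have hDp : jacobiSym D 5 = 1 := by
    rcases hD5 with h | h
    · have : jacobiSym D 5 = jacobiSym 1 5 := by
        apply jacobiSym.mod_left'
        omega
      rw [this, jacobiSym.one_left]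
    · have : jacobiSym D 5 = jacobiSym 4 5 := by
        apply jacobiSym.mod_left'
        omega
      rw [this]
      norm_num
  have hop : op 5 = o5 := by
    unfold op
    rw [if_pos rfl]
  have hl5 : l ≠ 5 := by rintro rfl; omega
  have h5l : ¬ (5 : ℤ) ∣ l := fun h => by
    have h' : 5 ∣ l := by exact_mod_cast h
    exact hl5 ((Nat.prime_dvd_prime_iff_eq Nat.prime_five hl).1 h').symm
  have := core (p := 5) (κ := 6) (li := (l : ℤ) ^ 3) (c := Pool.Agent.N969.P15.cp) sym15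
    (fun n1 n2 b m h1 h2 h3 h4 h5 => hPC n1 n2 b m h1 h2 h3 h4 h5)
    hL hC1 hC2 (Or.inr (Or.inl rfl)) hD hDp hd hs hl hl4 hl5 hDl hdl
    (fun a b h => by rw [hop]; exact o5_mod a b h) (by
      push_cast
      have h5 : (l : ℤ) % 5 = 1 ∨ (l : ℤ) % 5 = 2 ∨ (l : ℤ) % 5 = 3 ∨ (l : ℤ) % 5 = 4 := by omega
      have h7 : ((l : ℤ) * l ^ 3) % 5 = 1 := by
        obtain ⟨k, hk⟩ : ∃ k : ℤ, (l : ℤ) = 5 * k + (l : ℤ) % 5 := ⟨(l : ℤ) / 5, by omega⟩
        have e : (l : ℤ) * l ^ 3 = 5 * (k * (125 * k ^ 3 + 100 * k ^ 2 * ((l : ℤ) % 5) +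
          30 * k * ((l : ℤ) % 5) ^ 2 + 4 * ((l : ℤ) % 5) ^ 3)) + ((l : ℤ) % 5) ^ 4 := by
          generalize (l : ℤ) % 5 = r at hk
          rw [hk]
          ring
        rw [e]
        rcases h5 with h | h | h | h <;> rw [h] <;> omega
      omega)
  rw [hop] at this
  exact this

end Pool.Agent.N218.RQ
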