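import Pool.Agent.N218.RQ.Gen
import Pool.Agent.N816.RQ.Plus3
import Pool.Agent.N975.RQ.Frz
import Pool.Agent.N973.P15.CP3

/-!
# RQ: factorization of the crossing numbers with genus characters, level 15
-/

set_option autoImplicit false

open Finset

namespace Pool.Agent.N218.RQ.F15

open Pool.Agent.N969.RQ
open Pool.Agent.N969.P15 (un V3 tw Qc cc rr cp cp3 Cls0 vec ip)
open Pool.Agent.N970.RQ (nn_facts' Un_ndvd)

theorem jac3 {n : ℕ} (h : n % 3 = 1) : jacobiSym n 3 = 1 := by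
  have : jacobiSym n 3 = jacobiSym 1 3 := by
    apply jacobiSym.mod_left'
    omega
  rw [this, jacobiSym.one_left]

theorem jac3n {n : ℕ} (h : n % 3 = 2) : jacobiSym n 3 = -1 := by
  have : jacobiSym n 3 = jacobiSym 2 3 := by
    apply jacobiSym.mod_left'
    omega
  rw [this]
  norm_num

theorem jac3' {n : ℕ} (h : jacobiSym n 3 = 1) : n % 3 = 1 := by
  rcases (by omega : n % 3 = 0 ∨ n % 3 = 1 ∨ n % 3 = 2) with h2 | h2 | h2
  · exfalso
    rw [jac_zero (by norm_num) (Nat.dvd_of_mod_eq_zero h2)] at h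
    norm_num at h
  · exact h2
  · rw [jac3n h2] at h
    norm_num at h

theorem neg3 {n : ℕ} (h : jacobiSym n 3 = -1) : jacobiSym (-(n : ℤ)) 3 = 1 := by
  have : (-(n : ℤ)) = (-1) * n := by ring
  rw [this, jacobiSym.mul_left, h, show jacobiSym (-1) 3 = -1 by norm_num]
  norm_num

theorem jac5n {n : ℕ} (h : n % 5 = 2 ∨ n % 5 = 3) : jacobiSym n 5 = -1 := by
  have : jacobiSym n 5 = jacobiSym ((n % 5 : ℕ) : ℤ) 5 := by
    apply jacobiSym.mod_left'
    omega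
  rw [this]
  rcases h with h | h <;> rw [h] <;> norm_num

theorem jac5' {n : ℕ} (h : jacobiSym n 5 = 1) : n % 5 = 1 ∨ n % 5 = 4 := by
  rcases (by omega : n % 5 = 0 ∨ (n % 5 = 2 ∨ n % 5 = 3) ∨ (n % 5 = 1 ∨ n % 5 = 4)) with h2 | h2 | h2
  · exfalso
    rw [jac_zero (by norm_num) (Nat.dvd_of_mod_eq_zero h2)] at h
    norm_num at h
  · rw [jac5n h2] at h
    norm_num at h
  · exact h2

theorem sq3 {a : ℤ} (h : ¬ (3 : ℤ) ∣ a) : (3 : ℤ) ∣ a ^ 2 - 1 := by
  have h1 : a % 3 = 1 ∨ a % 3 = 2 := by omega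
  apply Int.ModEq.dvd
  refine Int.ModEq.symm ((Int.ModEq.pow 2 (Int.mod_modEq a 3).symm).trans ?_)
  rcases h1 with h | h <;> rw [h] <;> decide

/-- pairs with a common line, exchanged -/
theorem cp3_swap {n1 n2 : ℤ} {b : ℤ} (hb : ¬ (3 : ℤ) ∣ b) : cp3 n1 b n2 = cp3 n2 b n1 := by
  have key : ∀ v w : ℤ, (3 : ℤ) ∣ v + b * w → (3 : ℤ) ∣ w + b * v := by
    intro v w h3
    have h4 := (h3.mul_left b).sub ((sq3 hb).mul_right w)
    have e : b * (v + b * w) - (b ^ 2 - 1) * w = w + b * v := by ring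
    rwa [e] at h4
  unfold cp3
  refine card_nbij' (fun q => (q.2, q.1)) (fun q => (q.2, q.1)) ?_ ?_ ?_ ?_
  · rintro ⟨v, w⟩ hq
    rw [Finset.mem_coe, mem_filter, mem_product] at hq ⊢
    refine ⟨⟨hq.1.2, hq.1.1⟩, ?_, fun i => key _ _ (hq.2.2 i)⟩
    have := hq.2.1
    unfold ip at this ⊢
    simp only at this ⊢
    linarith
  · rintro ⟨v, w⟩ hq
    rw [Finset.mem_coe, mem_filter, mem_product] at hq ⊢
    refine ⟨⟨hq.1.2, hq.1.1⟩, ?_, fun i => key _ _ (hq.2.2 i)⟩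
    have := hq.2.1
    unfold ip at this ⊢
    simp only at this ⊢
    linarith
  · rintro ⟨v, w⟩ _
    rfl
  · rintro ⟨v, w⟩ _
    rfl

theorem cp3_neg (a b c : ℤ) : cp3 a (-b) c = cp3 a b c := by
  have h : ∀ (n : ℤ) (v : V3), v ∈ vec n → -v ∈ vec n := by
    intro n v hv
    unfold vec at hv ⊢
    rw [mem_filter, Fintype.mem_piFinset] at hv ⊢
    refine ⟨fun i => ?_, ?_⟩
    · have := Finset.mem_Icc.1 (hv.1 i)
      rw [Finset.mem_Icc, Pi.neg_apply]
      omega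
    · rw [← hv.2]
      unfold ip
      simp only [Pi.neg_apply]
      ring
  unfold cp3
  refine card_nbij' (fun q => (-q.1, q.2)) (fun q => (-q.1, q.2)) ?_ ?_ ?_ ?_
  · rintro ⟨v, w⟩ hq
    rw [Finset.mem_coe, mem_filter, mem_product] at hq ⊢
    refine ⟨⟨h _ _ hq.1.1, hq.1.2⟩, ?_, fun i => ?_⟩
    · have := hq.2.1
      unfold ip at this ⊢
      simp only [Pi.neg_apply]
      linarith
    · have := dvd_neg.2 (hq.2.2 i)
      have e : -(v i + -b * w i) = (-v) i + b * w i := by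
        rw [Pi.neg_apply]
        ring
      rwa [e] at this
  · rintro ⟨v, w⟩ hq
    rw [Finset.mem_coe, mem_filter, mem_product] at hq ⊢
    refine ⟨⟨h _ _ hq.1.1, hq.1.2⟩, ?_, fun i => ?_⟩
    · have := hq.2.1
      unfold ip at this ⊢
      simp only [Pi.neg_apply]
      linarith
    · have := dvd_neg.2 (hq.2.2 i)
      have e : -(v i + b * w i) = (-v) i + -b * w i := by
        rw [Pi.neg_apply]
        ring
      rwa [e] at this
  · rintro ⟨v, w⟩ _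
    simp
  · rintro ⟨v, w⟩ _
    simp

theorem inv15 {l : ℕ} (h3 : l % 3 = 2) (h5 : l % 5 = 2 ∨ l % 5 = 3) :
    ((15 : ℕ) : ℤ) ∣ l * (l : ℤ) ^ 3 - 1 := by
  have e : (l : ℤ) * (l : ℤ) ^ 3 - 1 = (l : ℤ) ^ 4 - 1 := by ring
  rw [e]
  have h1 : (5 : ℤ) ∣ (l : ℤ) ^ 4 - 1 := by
    have h6 : (l : ℤ) % 5 = 2 ∨ (l : ℤ) % 5 = 3 := by omega
    apply Int.ModEq.dvd
    refine Int.ModEq.symm ((Int.ModEq.pow 4 (Int.mod_modEq (l : ℤ) 5).symm).trans ?_)
    rcases h6 with h | h <;> rw [h] <;> decide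
  have h2 : (3 : ℤ) ∣ (l : ℤ) ^ 4 - 1 := by
    have h6 : (l : ℤ) % 3 = 2 := by omega
    apply Int.ModEq.dvd
    refine Int.ModEq.symm ((Int.ModEq.pow 4 (Int.mod_modEq (l : ℤ) 3).symm).trans ?_)
    rw [h6]
    decide
  have h3' : IsCoprime (3 : ℤ) 5 := by
    rw [Int.isCoprime_iff_gcd_eq_one]
    decide
  have := h3'.mul_dvd h2 h1
  norm_num at this ⊢
  exact this

theorem lcr_eq (n m : ℕ) : Pool.Agent.N969.P15.loc3 n m = (m.factorization 3 : ℤ) * lcr n m 5 3 := by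
  unfold Pool.Agent.N969.P15.loc3 Pool.Agent.N969.P15.lrest lcr
  rw [Finset.erase_right_comm (a := 3) (b := 5)]

/-- the auxiliary facts -/
theorem aux {D d l : ℕ} (hD : Fd D) (hD5 : jacobiSym D 5 = 1) (hd : Un D d)
    (h5 : jacobiSym d 5 = 1) :
    d * (D / d) = D ∧ 0 < D ∧ 0 < d ∧ 0 < D / d ∧ jacobiSym (D / d : ℕ) 5 = 1 ∧
      (jacobiSym l 5 = -1 → ¬ 5 ∣ nn D d l) := by
  have hprod : d * (D / d) = D := Nat.mul_div_cancel' hd.1
  have hD0 : 0 < D := by have := hD.1; omega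
  have hd0 : 0 < d := Nat.pos_of_ne_zero fun h => by rw [h, zero_mul] at hprod; omega
  have he0 : 0 < D / d := Nat.pos_of_ne_zero fun h => by rw [h, mul_zero] at hprod; omega
  have he5 : jacobiSym (D / d : ℕ) 5 = 1 := by
    have h := hD5
    rw [← hprod] at h
    rw [Nat.cast_mul, jacobiSym.mul_left, h5, one_mul] at h
    exact h
  refine ⟨hprod, hD0, hd0, he0, he5, fun hl => ?_⟩
  apply jac_ne (by norm_num)
  unfold nn
  split_ifs
  · rw [Nat.cast_mul, jacobiSym.mul_left, he5, hl]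
    norm_num
  · rw [Nat.cast_mul, jacobiSym.mul_left, h5, hl]
    norm_num

/-- the sum over the cusps `u / l` -/
noncomputable def EE (D d l : ℕ) : ℤ := ∑ u ∈ un l, jacobiSym u l * J 15 o5 D d u l

theorem cls {l : ℕ} (hc : Cls0 l) : l % 4 = 3 ∧ l % 3 = 2 ∧ (l % 5 = 2 ∨ l % 5 = 3) ∧ 3 < l := by
  obtain ⟨-, h⟩ := hc
  omega

theorem ee_st {D d l : ℕ} (hD : Fd D) (hd : Un D d) (hs : sgd D d = 1) (hl : l.Prime)
    (hc : Cls0 l) (hlD : ¬ l ∣ D) : EE D d l =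
      Pool.Agent.N969.RQ.ST 15 D l fun t m => o5 (t * (l : ℤ) ^ 3) * Wp 15 D d l t m := by
  obtain ⟨hl4, hl3, hl5, -⟩ := cls hc
  exact Pool.Agent.N975.RQ.t_C1Jp 15 o5 D d l ((l : ℤ) ^ 3) (by norm_num) hD hd hs hl
    (by rintro rfl; omega) (by
      intro h
      have h1 : l ≤ 15 := Nat.le_of_dvd (by norm_num) h
      interval_cases l <;> omega) hlD
    (fun a b h => o5_mod a b (dvd_trans (by norm_num) h)) (inv15 hl3 hl5)

/-- **key identity, `3 ∤ D`** -/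
theorem key {D d l : ℕ} (hD : R15 D) (hd : Un D d) (hs : sgd D d = 1) (h5 : jacobiSym d 5 = 1)
    (h3 : jacobiSym d 3 = 1) (hl : l.Prime) (hc : Cls0 l) (hlD : ¬ l ∣ D) :
    3 * Pool.Agent.N969.RQ.ST 15 D l (fun t _ => o5 (t * l ^ 3) * sj D d l t *
      ((cp (d * l : ℕ) t (D / d * l : ℕ) : ℤ) + cp3 (d * l : ℕ) t (D / d * l : ℕ))) =
      -4 * (J 15 o5 D d 1 3 * cc l ^ 2) := by
  have hc' := hc
  obtain ⟨hl4, hl3, hl5, -⟩ := cls hc
  obtain ⟨hprod, hD0, hd0, he0, he5, hn5⟩ := aux (l := l) hD.1 hD.2.2 hd h5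
  obtain ⟨f1, f2, f3⟩ := nn_facts' hD.1 hd hs hl hl4 hlD
  have hE : 9 * EE D d l = J 15 o5 D d 1 3 * cc l ^ 2 :=
    (Pool.Agent.N975.RQ.t_CMP15 D d l (Or.inl hD) hd hs hl hc').1
  have hd3 : d % 3 = 1 := jac3' h3
  have he3 : (D / d) % 3 = 1 := by
    have h : (d * (D / d)) % 3 = 1 := by rw [hprod]; exact hD.2.1
    rw [Nat.mul_mod, hd3, one_mul, Nat.mod_mod] at h
    exact h
  have hdl3 : d * l % 3 = 2 := by rw [Nat.mul_mod, hd3, hl3]
  have hel3 : D / d * l % 3 = 2 := by rw [Nat.mul_mod, he3, hl3]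
  have hn3 : nn D d l % 3 = 2 := by
    unfold nn
    split_ifs
    · exact hel3
    · exact hdl3
  have hn3' : nn' D d l % 3 = 2 := by
    unfold nn'
    split_ifs
    · exact hdl3
    · exact hel3
  have h3D : ¬ 3 ∣ D := by have := hD.2.1; omega
  have hl5' : jacobiSym l 5 = -1 := jac5n hl5
  have hrel := st_rel (N := 15) (D := D) (d := d) (l := l) (w := o5) (li := (l : ℤ) ^ 3) (κ := 12)
    (c := fun t => (cp (d * l : ℕ) t (D / d * l : ℕ) : ℤ) + cp3 (d * l : ℕ) t (D / d * l : ℕ))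
    hd hl hl4 hlD o5_neg (fun t => by rw [cp15_neg, cp3_neg]) (by
      intro t m hm0 hm h60 htl
      have e1 := Pool.Agent.N816.RQ.t_C2Jp15 D d l (Or.inl hD) hd hs hl hc' hlD t m hm0 hm htl h60
        h5 (Or.inl h3)
      rw [if_neg h3D] at e1
      have h3m : 3 ∣ m := dvd_trans (by norm_num) h60
      have hmz : (m : ℤ) = (nn D d l : ℕ) * (nn' D d l : ℕ) - t ^ 2 := by
        rw [hm]
        have : ((nn D d l * nn' D d l : ℕ) : ℤ) = ((D * l ^ 2 : ℕ) : ℤ) := by rw [f3]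
        push_cast at this
        rw [this]
      have h3t : ¬ (3 : ℤ) ∣ t := by
        intro h
        have h6 : (3 : ℤ) ∣ (nn D d l : ℕ) * (nn' D d l : ℕ) := by
          have h7 : (3 : ℤ) ∣ m := by exact_mod_cast h3m
          rw [hmz] at h7
          have := dvd_add h7 (dvd_pow h two_ne_zero)
          rwa [sub_add_cancel] at this
        have h7 : 3 ∣ nn D d l * nn' D d l := by exact_mod_cast h6
        rw [Nat.dvd_iff_mod_eq_zero, Nat.mul_mod, hn3, hn3'] at h7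
        norm_num at h7
      have e2 := Pool.Agent.N973.P15.t_CP3 Pool.Agent.N972.PC15.t_PC (nn D d l) (nn' D d l) t m
        f1 f2 hn3 hn3' (hn5 hl5') h3t hm0 hmz
      have e3 : (cp (d * l : ℕ) t (D / d * l : ℕ) : ℤ) + cp3 (d * l : ℕ) t (D / d * l : ℕ) =
          (cp (nn D d l) t (nn' D d l) : ℤ) + cp3 (nn D d l) t (nn' D d l) := by
        have s1 := sym15 (nn D d l) t (nn' D d l)
        have s2 := cp3_swap (n1 := (nn D d l : ℕ)) (n2 := (nn' D d l : ℕ)) h3t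
        unfold nn nn' at s1 s2 ⊢
        by_cases h : 2 ∣ d
        · rw [if_pos h, if_pos h] at s1 s2 ⊢
          rw [s1, s2]
        · rw [if_neg h, if_neg h]
      rw [e3, e2, e1, lcr_eq]
      ring)
  rw [← ee_st hD.1 hd hs hl hc' hlD] at hrel
  rw [hrel]
  linear_combination -4 * hE

/-- **key identity, `3 ∣ D`** -/
theorem keyr {D d l : ℕ} (hD : R15r D) (hd : Un D d) (hs : sgd D d = 1) (h5 : jacobiSym d 5 = 1)
    (h3 : jacobiSym d 3 = 1 ∨ jacobiSym (D / d : ℕ) 3 = 1) (hl : l.Prime) (hc : Cls0 l)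
    (hlD : ¬ l ∣ D) :
    6 * Pool.Agent.N969.RQ.ST 15 D l (fun t _ => o5 (t * l ^ 3) * sj D d l t *
      (cp (d * l : ℕ) t (D / d * l : ℕ) : ℤ)) = -8 * (J 15 o5 D d 1 3 * cc l ^ 2) := by
  have hc' := hc
  obtain ⟨hl4, hl3, hl5, -⟩ := cls hc
  obtain ⟨hprod, hD0, hd0, he0, he5, hn5⟩ := aux (l := l) hD.1 hD.2.2 hd h5
  obtain ⟨f1, f2, f3⟩ := nn_facts' hD.1 hd hs hl hl4 hlD
  have hE : 9 * EE D d l = J 15 o5 D d 1 3 * cc l ^ 2 :=
    (Pool.Agent.N975.RQ.t_CMP15 D d l (Or.inr hD) hd hs hl hc').1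
  have p3 : Nat.Prime 3 := by norm_num
  have hl3' : jacobiSym l 3 = -1 := jac3n hl3
  have hl5' : jacobiSym l 5 = -1 := jac5n hl5
  have h3l : ¬ 3 ∣ l := by omega
  have hnot : ∀ n : ℕ, Squarefree n → ¬ 3 * 3 ∣ n := fun n hn h => by
    have := Nat.isUnit_iff.1 (hn 3 h)
    omega
  have hcase : (¬ 3 ∣ nn D d l ∧ jacobiSym (-(nn D d l : ℤ)) 3 = 1) ∨
      (3 ∣ nn D d l ∧ jacobiSym (-(nn' D d l : ℤ)) 3 = 1 ∧ ¬ 3 * 3 ∣ nn D d l) := by
    have hcas : ∀ a b : ℕ, a * b = D → (jacobiSym a 3 = 1 ∨ jacobiSym b 3 = 1) →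
        (¬ 3 ∣ a * l ∧ jacobiSym (-((a * l : ℕ) : ℤ)) 3 = 1) ∨
        (3 ∣ a * l ∧ jacobiSym (-((b * l : ℕ) : ℤ)) 3 = 1) := by
      intro a b hab h
      rcases h with h | h
      · left
        have h1 : jacobiSym (a * l : ℕ) 3 = -1 := by
          rw [Nat.cast_mul, jacobiSym.mul_left, h, hl3', one_mul]
        exact ⟨jac_ne p3 (by rw [h1]; norm_num), neg3 h1⟩
      · right
        have h1 : jacobiSym (b * l : ℕ) 3 = -1 := by
          rw [Nat.cast_mul, jacobiSym.mul_left, h, hl3', one_mul]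
        have h2 : ¬ 3 ∣ b := jac_ne p3 (by rw [h]; norm_num)
        have h4 : 3 ∣ a * b := by rw [hab]; exact hD.2.1
        refine ⟨((Nat.Prime.dvd_mul p3).1 h4 |>.resolve_right h2).mul_right l, neg3 h1⟩
    by_cases h : 2 ∣ d
    · have := hcas (D / d) d (by rw [mul_comm]; exact hprod) h3.symm
      have hn := hnot _ f1
      unfold nn nn' at *
      rw [if_pos h] at hn ⊢
      rw [if_pos h]
      rcases this with h5 | h5
      · exact Or.inl h5
      · exact Or.inr ⟨h5.1, h5.2, hn⟩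
    · have := hcas d (D / d) hprod h3
      have hn := hnot _ f1
      unfold nn nn' at *
      rw [if_neg h] at hn ⊢
      rw [if_neg h]
      rcases this with h5 | h5
      · exact Or.inl h5
      · exact Or.inr ⟨h5.1, h5.2, hn⟩
  have hrel := st_rel (N := 15) (D := D) (d := d) (l := l) (w := o5) (li := (l : ℤ) ^ 3) (κ := 12)
    (c := fun t => (cp (d * l : ℕ) t (D / d * l : ℕ) : ℤ))
    hd hl hl4 hlD o5_neg (fun t => by rw [cp15_neg]) (by
      intro t m hm0 hm h60 htl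
      have e1 := Pool.Agent.N816.RQ.t_C2Jp15 D d l (Or.inr hD) hd hs hl hc' hlD t m hm0 hm htl h60
        h5 h3
      rw [if_pos hD.2.1, one_mul] at e1
      have h3m : 3 ∣ m := dvd_trans (by norm_num) h60
      have hmz : (m : ℤ) = (nn D d l : ℕ) * (nn' D d l : ℕ) - t ^ 2 := by
        rw [hm]
        have : ((nn D d l * nn' D d l : ℕ) : ℤ) = ((D * l ^ 2 : ℕ) : ℤ) := by rw [f3]
        push_cast at this
        rw [this]
      have e2 := Pool.Agent.N972.PC15.t_PC (nn D d l) (nn' D d l) t m f1 f2 (hn5 hl5') hm0 hmz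
      have e3 : (cp (d * l : ℕ) t (D / d * l : ℕ) : ℤ) = (cp (nn D d l) t (nn' D d l) : ℤ) := by
        have s1 := sym15 (nn D d l) t (nn' D d l)
        unfold nn nn' at s1 ⊢
        by_cases h : 2 ∣ d
        · rw [if_pos h, if_pos h] at s1 ⊢
          rw [s1]
        · rw [if_neg h, if_neg h]
      obtain ⟨g1, g2⟩ := fact_one hD.1 p3 (by norm_num) hD.2.1 h3l hm0 hm h3m
      have e4 : Pool.Agent.N969.P15.loc (nn D d l) m = 2 * lcr (nn D d l) m 5 3 := by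
        have h6 := lcr_mul (n := nn D d l) (m := m) (p := 5) (r := 3) p3 h3m (by norm_num)
          (by norm_num) hm0.ne'
        rw [fac_two p3 g2 hmz g1 hcase] at h6
        exact h6
      rw [e3, e2, e1, e4]
      ring)
  rw [← ee_st hD.1 hd hs hl hc' hlD] at hrel
  rw [hrel]
  linear_combination -8 * hE

end Pool.Agent.N218.RQ.F15
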