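import Pool.Agent.N218.RQ.Val15
import Pool.Agent.N969.RQ.Defs5

/-!
# RQ: the crossing numbers of level 15 with the orientation at 3
-/

set_option autoImplicit false

open Finset

namespace Pool.Agent.N218.RQ.F15n

open Pool.Agent.N969.RQ
open Pool.Agent.N969.P15 (un V3 tw Qc cc Cls0)
open Pool.Agent.N970.RQ (nn_facts' Un_ndvd)
open Pool.Agent.N973.P15G (Aii P)
open N877.P21 (cp vec ip)
open Pool.Agent.N218.RQ.F15 (cc_ne exists_l jac3 jac3n jac5n inv15 cls)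

/-- pairs with a common line, exchanged -/
theorem cp5_swap {n1 n2 : ℕ} {b : ℤ} (h1 : ¬ 5 ∣ n1) (h2 : ¬ 5 ∣ n2)
    (hb : (5 : ℤ) ∣ n1 * n2 - b ^ 2) : cp5 n1 b n2 = cp5 n2 b n1 := by
  have p5 : Prime (5 : ℤ) := Nat.prime_iff_prime_int.1 (by norm_num)
  have key : ∀ (m1 m2 : ℕ) (v w : ℤ), ¬ 5 ∣ m2 → (5 : ℤ) ∣ m1 * m2 - b ^ 2 →
      (5 : ℤ) ∣ m2 * v - b * w → (5 : ℤ) ∣ m1 * w - b * v := by
    intro m1 m2 v w h hb h3
    have h4 : (5 : ℤ) ∣ m2 * (m1 * w - b * v) := by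
      have h5 := dvd_sub (hb.mul_right w) (h3.mul_left b)
      have e : (m1 * m2 - b ^ 2) * w - b * (m2 * v - b * w) = (m2 : ℤ) * (m1 * w - b * v) := by ring
      rwa [e] at h5
    rcases p5.dvd_or_dvd h4 with h5 | h5
    · exact absurd (by exact_mod_cast h5) h
    · exact h5
  unfold cp5
  refine card_nbij' (fun q => (q.2, q.1)) (fun q => (q.2, q.1)) ?_ ?_ ?_ ?_
  · rintro ⟨v, w⟩ hq
    rw [Finset.mem_coe, mem_filter, mem_product] at hq ⊢
    refine ⟨⟨hq.1.2, hq.1.1⟩, ?_, fun i => key _ _ _ _ h2 hb (hq.2.2 i)⟩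
    have := hq.2.1
    unfold ip at this ⊢
    simp only at this ⊢
    linarith
  · rintro ⟨v, w⟩ hq
    rw [Finset.mem_coe, mem_filter, mem_product] at hq ⊢
    refine ⟨⟨hq.1.2, hq.1.1⟩, ?_, fun i => key n2 n1 _ _ h1 (by
      rw [mul_comm]; exact hb) (hq.2.2 i)⟩
    have := hq.2.1
    unfold ip at this ⊢
    simp only at this ⊢
    linarith
  · rintro ⟨v, w⟩ _
    rfl
  · rintro ⟨v, w⟩ _
    rfl

theorem cp5_neg (a b c : ℤ) : cp5 a (-b) c = cp5 a b c := by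
  have h : ∀ (n : ℤ) (v : V3), v ∈ vec n → -v ∈ vec n := by
    intro n v hv
    unfold vec at hv ⊢
    rw [mem_filter, Fintype.mem_piFinset] at hv ⊢
    refine ⟨fun i => ?_, ?_⟩
    · have := Finset.mem_Icc.1 (hv.1 i)
      rw [Finset.mem_Icc, Pi.neg_apply]
      omega
    · rw [← hv.2]
      unfold ip
      simp only [Pi.neg_apply]
      ring
  unfold cp5
  refine card_nbij' (fun q => (-q.1, q.2)) (fun q => (-q.1, q.2)) ?_ ?_ ?_ ?_
  · rintro ⟨v, w⟩ hq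
    rw [Finset.mem_coe, mem_filter, mem_product] at hq ⊢
    refine ⟨⟨h _ _ hq.1.1, hq.1.2⟩, ?_, fun i => ?_⟩
    · have := hq.2.1
      unfold ip at this ⊢
      simp only [Pi.neg_apply]
      linarith
    · have := dvd_neg.2 (hq.2.2 i)
      have e : -(c * v i - -b * w i) = c * (-v) i - b * w i := by
        rw [Pi.neg_apply]
        ring
      rwa [e] at this
  · rintro ⟨v, w⟩ hq
    rw [Finset.mem_coe, mem_filter, mem_product] at hq ⊢
    refine ⟨⟨h _ _ hq.1.1, hq.1.2⟩, ?_, fun i => ?_⟩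
    · have := hq.2.1
      unfold ip at this ⊢
      simp only [Pi.neg_apply]
      linarith
    · have := dvd_neg.2 (hq.2.2 i)
      have e : -(c * v i - b * w i) = c * (-v) i - -b * w i := by
        rw [Pi.neg_apply]
        ring
      rwa [e] at this
  · rintro ⟨v, w⟩ _
    simp
  · rintro ⟨v, w⟩ _
    simp

/-- the sum over the cusps `u / l` -/
noncomputable def EE (D d l : ℕ) : ℤ := ∑ u ∈ un l, jacobiSym u l * J 15 o3 D d u l

theorem ee_st {D d l : ℕ} (hD : Fd D) (hd : Un D d) (hs : sgd D d = 1) (hl : l.Prime)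
    (hc : Cls0 l) (hlD : ¬ l ∣ D) : EE D d l =
      Pool.Agent.N969.RQ.ST 15 D l fun t m => o3 (t * (l : ℤ) ^ 3) * Wp 15 D d l t m := by
  obtain ⟨hl4, hl3, hl5, -⟩ := cls hc
  exact Pool.Agent.N975.RQ.t_C1Jp 15 o3 D d l ((l : ℤ) ^ 3) (by norm_num) hD hd hs hl
    (by rintro rfl; omega) (by
      intro h
      have h1 : l ≤ 15 := Nat.le_of_dvd (by norm_num) h
      interval_cases l <;> omega) hlD
    (fun a b h => o3_mod a b (dvd_trans (by norm_num) h)) (inv15 hl3 hl5)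

theorem o3_cube {l : ℕ} (h : l % 3 = 2) (t : ℤ) : o3 (t * (l : ℤ) ^ 3) = o3 (t * l) := by
  unfold o3
  rw [jacobiSym.mul_left, jacobiSym.pow_left, jacobiSym.mul_left, jac3n h]
  norm_num

theorem jm3 {n : ℕ} (hn : jacobiSym n 3 = -1) : n % 3 = 2 := by
  rcases (by omega : n % 3 = 0 ∨ n % 3 = 1 ∨ n % 3 = 2) with h2 | h2 | h2
  · exfalso
    rw [jac_zero (by norm_num) (Nat.dvd_of_mod_eq_zero h2)] at hn
    norm_num at hn
  · rw [jac3 h2] at hn
    norm_num at hn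
  · exact h2

theorem jp5 {n : ℕ} (hn : jacobiSym n 5 = 1) : n % 5 = 1 ∨ n % 5 = 4 := F15.jac5' hn

/-- **key identity** -/
theorem key (hC : S_CP5) {D d l : ℕ} (hD : R15 D) (hd : Un D d) (hs : sgd D d = 1)
    (h3 : jacobiSym d 3 = -1) (h5 : jacobiSym d 5 = -1) (he3 : jacobiSym (D / d : ℕ) 3 = -1)
    (he5 : jacobiSym (D / d : ℕ) 5 = -1) (hl : l.Prime) (hc : Cls0 l) (hlD : ¬ l ∣ D) :
    3 * Pool.Agent.N969.RQ.ST 15 D l (fun t _ => o3 (t * l) * sj D d l t *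
      ((cp (d * l : ℕ) t (D / d * l : ℕ) : ℤ) + cp5 (d * l : ℕ) t (D / d * l : ℕ))) =
      -8 * (J 15 o3 D d 1 3 * cc l ^ 2) := by
  have hc' := hc
  obtain ⟨hl4, hl3, hl5, -⟩ := cls hc
  obtain ⟨f1, f2, f3⟩ := nn_facts' hD.1 hd hs hl hl4 hlD
  have hE : 9 * EE D d l = J 15 o3 D d 1 3 * cc l ^ 2 :=
    (Pool.Agent.N975.RQ.t_CMP15 D d l (Or.inl hD) hd hs hl hc').2 hD
  have hl5' : jacobiSym l 5 = -1 := jac5n hl5
  have hdl5 : jacobiSym (d * l : ℕ) 5 = 1 := by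
    rw [Nat.cast_mul, jacobiSym.mul_left, h5, hl5']
    norm_num
  have hel5 : jacobiSym (D / d * l : ℕ) 5 = 1 := by
    rw [Nat.cast_mul, jacobiSym.mul_left, he5, hl5']
    norm_num
  have hdl3 : d * l % 3 = 1 := by rw [Nat.mul_mod, jm3 h3, hl3]
  have hel3 : D / d * l % 3 = 1 := by rw [Nat.mul_mod, jm3 he3, hl3]
  have hn5 : jacobiSym (nn D d l) 5 = 1 := by
    unfold nn
    split_ifs
    · exact hel5
    · exact hdl5
  have hn5' : jacobiSym (nn' D d l) 5 = 1 := by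
    unfold nn'
    split_ifs
    · exact hdl5
    · exact hel5
  have hn3 : nn D d l % 3 = 1 := by
    unfold nn
    split_ifs
    · exact hel3
    · exact hdl3
  have p5 : Nat.Prime 5 := by norm_num
  have hrel := st_rel (N := 15) (D := D) (d := d) (l := l) (w := o3) (li := (l : ℤ) ^ 3) (κ := 24)
    (c := fun t => (cp (d * l : ℕ) t (D / d * l : ℕ) : ℤ) + cp5 (d * l : ℕ) t (D / d * l : ℕ))
    hd hl hl4 hlD o3_neg (fun t => by rw [cp21_neg, cp5_neg]) (by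
      intro t m hm0 hm h60 htl
      have e1 := Pool.Agent.N816.RQ.t_C2Jp15n D d l hD hd hs hl hc' hlD t m hm0 hm htl h60
        h3 h5
      have h5m : 5 ∣ m := dvd_trans (by norm_num) h60
      have hmz : (m : ℤ) = (nn D d l : ℕ) * (nn' D d l : ℕ) - t ^ 2 := by
        rw [hm]
        have : ((nn D d l * nn' D d l : ℕ) : ℤ) = ((D * l ^ 2 : ℕ) : ℤ) := by rw [f3]
        push_cast at this
        rw [this]
      have e2 := hC (nn D d l) (nn' D d l) t m f1 f2 (jp5 hn5) (jp5 hn5') (by omega) hm0 h5m hmz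
      have e3 : (cp (d * l : ℕ) t (D / d * l : ℕ) : ℤ) + cp5 (d * l : ℕ) t (D / d * l : ℕ) =
          (cp (nn D d l) t (nn' D d l) : ℤ) + cp5 (nn D d l) t (nn' D d l) := by
        have h5z : (5 : ℤ) ∣ ((nn D d l : ℕ) : ℤ) * (nn' D d l : ℕ) - t ^ 2 := by
          rw [← hmz]
          exact_mod_cast h5m
        have s1 := sym21 (nn D d l) t (nn' D d l)
        have s2 := cp5_swap (jac_ne p5 (by rw [hn5]; norm_num))
          (jac_ne p5 (by rw [hn5']; norm_num)) h5z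
        unfold nn nn' at s1 s2 ⊢
        by_cases h : 2 ∣ d
        · rw [if_pos h, if_pos h] at s1 s2 ⊢
          rw [s1, s2]
        · rw [if_neg h, if_neg h]
      rw [e3, e2, e1]
      ring)
  rw [← ee_st hD.1 hd hs hl hc' hlD] at hrel
  have e5 : Pool.Agent.N969.RQ.ST 15 D l (fun t _ => o3 (t * l) * sj D d l t *
      ((cp (d * l : ℕ) t (D / d * l : ℕ) : ℤ) + cp5 (d * l : ℕ) t (D / d * l : ℕ))) =
      Pool.Agent.N969.RQ.ST 15 D l (fun t _ => o3 (t * (l : ℤ) ^ 3) * sj D d l t *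
      ((cp (d * l : ℕ) t (D / d * l : ℕ) : ℤ) + cp5 (d * l : ℕ) t (D / d * l : ℕ))) := by
    congr 1
    funext t _
    rw [o3_cube hl3]
  rw [e5]
  linear_combination 3 * hrel - 8 * hE

/-- **FAC15n** -/
theorem s_FAC15n (hC : S_CP5) (hB : S_BILJ15n) : S_FAC15n := by
  intro D d hD hd hs hA hA' c c' hcd hce
  have hD0 : 0 < D := by have := hD.1.1; omega
  obtain ⟨l, hl, hc, hlD⟩ := exists_l D hD0
  obtain ⟨hld, hle⟩ := Un_ndvd hd hlD
  obtain ⟨Z, h1, h2⟩ := hB l hl hc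
  have h3 := jac3n hA.2.1
  have he3 := jac3n hA'.2.1
  have h5 := jac5n hA.2.2
  have he5 := jac5n hA'.2.2
  have g2 := h1 D d hD hlD hd hs h3 h5
  have hk := key hC hD hd hs h3 h5 he3 he5 hl hc hlD
  have hcc := cc_ne hl hc
  have hsq : 81 * (Z d * Z (D / d)) ^ 2 = 16 * (J 15 o3 D d 1 3 * cc l ^ 2) ^ 2 := by
    rcases g2 with h | h
    · rw [h] at hk
      have hk' : 9 * (Z d * Z (D / d)) = -4 * (J 15 o3 D d 1 3 * cc l ^ 2) := by linarith
      linear_combination (9 * (Z d * Z (D / d)) - 4 * (J 15 o3 D d 1 3 * cc l ^ 2)) * hk'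
    · rw [h] at hk
      have hk' : 9 * (Z d * Z (D / d)) = 4 * (J 15 o3 D d 1 3 * cc l ^ 2) := by linarith
      linear_combination (9 * (Z d * Z (D / d)) + 4 * (J 15 o3 D d 1 3 * cc l ^ 2)) * hk'
  have q1 := hcd l hl hc hld
  have q2 := hce l hl hc hle
  rw [h2 d hld hA] at q1
  rw [h2 (D / d) hle hA'] at q2
  have h6 : 16 * cc l ^ 4 ≠ 0 := mul_ne_zero (by norm_num) (pow_ne_zero 4 hcc)
  apply mul_left_cancel₀ h6
  linear_combination -hsq + (9 * Z (D / d) ^ 2) * q1 - 4 * c * cc l ^ 2 * q2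

end Pool.Agent.N218.RQ.F15n
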