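import Pool.Agent.N218.RQ.Gen
import Pool.Agent.N816.RQ.Plus3
import Pool.Agent.N975.RQ.Frz

/-!
# RQ: factorization of the crossing numbers with genus characters, level 21
-/

set_option autoImplicit false

open Finset

namespace Pool.Agent.N218.RQ.F21

open Pool.Agent.N969.RQ
open Pool.Agent.N969.P15 (un V3 tw Qc)
open Pool.Agent.N970.RQ (nn_facts' Un_ndvd)
open N877.P21 (cc rr cp cp7 Sp7 Cls0 vec ip)

theorem jac7 (n : ℕ) : jacobiSym n 7 = jacobiSym ((n % 7 : ℕ) : ℤ) 7 := by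
  apply jacobiSym.mod_left'
  omega

theorem sp7_iff {n : ℕ} : Sp7 n ↔ jacobiSym n 7 = -1 := by
  unfold Sp7
  rw [jac7]
  have h : n % 7 < 7 := Nat.mod_lt _ (by norm_num)
  interval_cases n % 7 <;> norm_num

theorem neg7 {n : ℕ} (h : jacobiSym n 7 = -1) : jacobiSym (-(n : ℤ)) 7 = 1 := by
  have : (-(n : ℤ)) = (-1) * n := by ring
  rw [this, jacobiSym.mul_left, h, show jacobiSym (-1) 7 = -1 by norm_num]
  norm_num

theorem jac3 {n : ℕ} (h : n % 3 = 1) : jacobiSym n 3 = 1 := by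
  have : jacobiSym n 3 = jacobiSym 1 3 := by
    apply jacobiSym.mod_left'
    omega
  rw [this, jacobiSym.one_left]

theorem jac3' {n : ℕ} (h : jacobiSym n 3 = 1) : n % 3 = 1 := by
  have h1 : jacobiSym n 3 = jacobiSym ((n % 3 : ℕ) : ℤ) 3 := by
    apply jacobiSym.mod_left'
    omega
  rw [h1] at h
  rcases (by omega : n % 3 = 0 ∨ n % 3 = 1 ∨ n % 3 = 2) with h2 | h2 | h2
  · rw [h2] at h
    norm_num at h
  · exact h2
  · rw [h2] at h
    norm_num at h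

/-- pairs with a common line, exchanged -/
theorem cp7_swap {n1 n2 : ℕ} {b : ℤ} (h1 : ¬ 7 ∣ n1) (h2 : ¬ 7 ∣ n2)
    (hb : (7 : ℤ) ∣ n1 * n2 - b ^ 2) : cp7 n1 b n2 = cp7 n2 b n1 := by
  have p7 : Prime (7 : ℤ) := Nat.prime_iff_prime_int.1 (by norm_num)
  have key : ∀ (m1 m2 : ℕ) (v w : ℤ), ¬ 7 ∣ m2 → (7 : ℤ) ∣ m1 * m2 - b ^ 2 →
      (7 : ℤ) ∣ m2 * v - b * w → (7 : ℤ) ∣ m1 * w - b * v := by
    intro m1 m2 v w h hb h3
    have h4 : (7 : ℤ) ∣ m2 * (m1 * w - b * v) := by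
      have h5 := dvd_sub (hb.mul_right w) (h3.mul_left b)
      have e : (m1 * m2 - b ^ 2) * w - b * (m2 * v - b * w) = (m2 : ℤ) * (m1 * w - b * v) := by ring
      rwa [e] at h5
    rcases p7.dvd_or_dvd h4 with h5 | h5
    · exact absurd (by exact_mod_cast h5) h
    · exact h5
  unfold cp7
  refine card_nbij' (fun q => (q.2, q.1)) (fun q => (q.2, q.1)) ?_ ?_ ?_ ?_
  · rintro ⟨v, w⟩ hq
    rw [Finset.mem_coe, mem_filter, mem_product] at hq ⊢
    refine ⟨⟨hq.1.2, hq.1.1⟩, ?_, fun i => key _ _ _ _ h2 hb (hq.2.2 i)⟩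
    have := hq.2.1
    unfold ip at this ⊢
    simp only at this ⊢
    linarith
  · rintro ⟨v, w⟩ hq
    rw [Finset.mem_coe, mem_filter, mem_product] at hq ⊢
    refine ⟨⟨hq.1.2, hq.1.1⟩, ?_, fun i => key n2 n1 _ _ h1 (by
      rw [mul_comm]; exact hb) (hq.2.2 i)⟩
    have := hq.2.1
    unfold ip at this ⊢
    simp only at this ⊢
    linarith
  · rintro ⟨v, w⟩ _
    rfl
  · rintro ⟨v, w⟩ _
    rfl

theorem cp7_neg (a b c : ℤ) : cp7 a (-b) c = cp7 a b c := by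
  have h : ∀ (n : ℤ) (v : V3), v ∈ vec n → -v ∈ vec n := by
    intro n v hv
    unfold vec at hv ⊢
    rw [mem_filter, Fintype.mem_piFinset] at hv ⊢
    refine ⟨fun i => ?_, ?_⟩
    · have := Finset.mem_Icc.1 (hv.1 i)
      rw [Finset.mem_Icc, Pi.neg_apply]
      omega
    · rw [← hv.2]
      unfold ip
      simp only [Pi.neg_apply]
      ring
  unfold cp7
  refine card_nbij' (fun q => (-q.1, q.2)) (fun q => (-q.1, q.2)) ?_ ?_ ?_ ?_
  · rintro ⟨v, w⟩ hq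
    rw [Finset.mem_coe, mem_filter, mem_product] at hq ⊢
    refine ⟨⟨h _ _ hq.1.1, hq.1.2⟩, ?_, fun i => ?_⟩
    · have := hq.2.1
      unfold ip at this ⊢
      simp only [Pi.neg_apply]
      linarith
    · have := dvd_neg.2 (hq.2.2 i)
      have e : -(c * v i - -b * w i) = c * (-v) i - b * w i := by
        rw [Pi.neg_apply]
        ring
      rwa [e] at this
  · rintro ⟨v, w⟩ hq
    rw [Finset.mem_coe, mem_filter, mem_product] at hq ⊢
    refine ⟨⟨h _ _ hq.1.1, hq.1.2⟩, ?_, fun i => ?_⟩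
    · have := hq.2.1
      unfold ip at this ⊢
      simp only [Pi.neg_apply]
      linarith
    · have := dvd_neg.2 (hq.2.2 i)
      have e : -(c * v i - b * w i) = c * (-v) i - -b * w i := by
        rw [Pi.neg_apply]
        ring
      rwa [e] at this
  · rintro ⟨v, w⟩ _
    simp
  · rintro ⟨v, w⟩ _
    simp

theorem inv21 {l : ℕ} (h3 : l % 3 = 1) (h7 : Sp7 l) : ((21 : ℕ) : ℤ) ∣ l * (l : ℤ) ^ 5 - 1 := by
  have e : (l : ℤ) * (l : ℤ) ^ 5 - 1 = (l : ℤ) ^ 6 - 1 := by ring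
  rw [e]
  have h1 : (7 : ℤ) ∣ (l : ℤ) ^ 6 - 1 := by
    have h5 : (l : ℤ) % 7 = 3 ∨ (l : ℤ) % 7 = 5 ∨ (l : ℤ) % 7 = 6 := by
      unfold Sp7 at h7
      omega
    apply Int.ModEq.dvd
    refine Int.ModEq.symm ((Int.ModEq.pow 6 (Int.mod_modEq (l : ℤ) 7).symm).trans ?_)
    rcases h5 with h | h | h <;> rw [h] <;> decide
  have h2 : (3 : ℤ) ∣ (l : ℤ) ^ 6 - 1 := by
    have h5 : (l : ℤ) % 3 = 1 := by omega
    apply Int.ModEq.dvd
    refine Int.ModEq.symm ((Int.ModEq.pow 6 (Int.mod_modEq (l : ℤ) 3).symm).trans ?_)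
    rw [h5]
    decide
  have h3' : IsCoprime (3 : ℤ) 7 := by
    rw [Int.isCoprime_iff_gcd_eq_one]
    decide
  have := h3'.mul_dvd h2 h1
  norm_num at this ⊢
  exact this

theorem o3_l {l : ℕ} (h3 : l % 3 = 1) (t : ℤ) (k : ℕ) : o3 (t * (l : ℤ) ^ k) = o3 t := by
  unfold o3
  rw [jacobiSym.mul_left, jacobiSym.pow_left, jac3 h3, one_pow, mul_one]

/-- the auxiliary facts -/
theorem aux {D d l : ℕ} (hD : Fd D) (hD3 : D % 3 = 1) (hd : Un D d) (h3 : jacobiSym d 3 = 1) :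
    d * (D / d) = D ∧ 0 < D ∧ 0 < d ∧ 0 < D / d ∧ d % 3 = 1 ∧ (D / d) % 3 = 1 ∧
      (l % 3 = 1 → ¬ 3 ∣ nn D d l) := by
  have hprod : d * (D / d) = D := Nat.mul_div_cancel' hd.1
  have hD0 : 0 < D := by have := hD.1; omega
  have hd0 : 0 < d := Nat.pos_of_ne_zero fun h => by rw [h, zero_mul] at hprod; omega
  have he0 : 0 < D / d := Nat.pos_of_ne_zero fun h => by rw [h, mul_zero] at hprod; omega
  have hd3 := jac3' h3
  have he3 : (D / d) % 3 = 1 := by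
    have h : (d * (D / d)) % 3 = 1 := by rw [hprod]; exact hD3
    rw [Nat.mul_mod, hd3, one_mul, Nat.mod_mod] at h
    exact h
  refine ⟨hprod, hD0, hd0, he0, hd3, he3, fun hl => ?_⟩
  unfold nn
  split_ifs
  · rw [Nat.dvd_iff_mod_eq_zero, Nat.mul_mod, he3, hl]
    norm_num
  · rw [Nat.dvd_iff_mod_eq_zero, Nat.mul_mod, hd3, hl]
    norm_num

/-- the sum over the cusps `u / l` -/
noncomputable def EE (D d l : ℕ) : ℤ := ∑ u ∈ un l, jacobiSym u l * J 21 o3 D d u l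

theorem ee_st {D d l : ℕ} (hD : Fd D) (hd : Un D d) (hs : sgd D d = 1) (hl : l.Prime)
    (hc : Cls0 l) (hlD : ¬ l ∣ D) : EE D d l =
      Pool.Agent.N969.RQ.ST 21 D l fun t m => o3 (t * (l : ℤ) ^ 5) * Wp 21 D d l t m := by
  obtain ⟨-, hl4, hl3, hl7⟩ := hc
  exact Pool.Agent.N975.RQ.t_C1Jp 21 o3 D d l ((l : ℤ) ^ 5) (by norm_num) hD hd hs hl
    (by rintro rfl; omega) (by
      intro h
      have h1 : l ≤ 21 := Nat.le_of_dvd (by norm_num) h
      unfold Sp7 at hl7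
      interval_cases l <;> omega) hlD
    (fun a b h => o3_mod a b (dvd_trans (by norm_num) h)) (inv21 hl3 hl7)

/-- **key identity, `7 ∤ D`** -/
theorem key {D d l : ℕ} (hD : R21 D) (hd : Un D d) (hs : sgd D d = 1) (h3 : jacobiSym d 3 = 1)
    (h7 : jacobiSym d 7 = 1) (hl : l.Prime) (hc : Cls0 l) (hlD : ¬ l ∣ D) :
    6 * Pool.Agent.N969.RQ.ST 21 D l (fun t _ => o3 (t * l) * sj D d l t *
      ((cp (d * l : ℕ) t (D / d * l : ℕ) : ℤ) + cp7 (d * l : ℕ) t (D / d * l : ℕ))) =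
      -4 * (J 21 o3 D d 1 3 * cc l ^ 2) := by
  have hc' := hc
  obtain ⟨hls, hl4, hl3, hl7⟩ := hc
  obtain ⟨hprod, hD0, hd0, he0, hd3, he3, hn3⟩ := aux (l := l) hD.1 hD.2.1 hd h3
  obtain ⟨f1, f2, f3⟩ := nn_facts' hD.1 hd hs hl hl4 hlD
  have hE : 36 * EE D d l = J 21 o3 D d 1 3 * cc l ^ 2 :=
    (Pool.Agent.N975.RQ.t_CMP21 D d l (Or.inl hD) hd hs hl hc').1
  have he7 : jacobiSym (D / d : ℕ) 7 = 1 := by
    have h := hD.2.2
    rw [← hprod] at h
    push_cast at h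
    rw [jacobiSym.mul_left, h7, one_mul] at h
    exact_mod_cast h
  have hl7' : jacobiSym l 7 = -1 := sp7_iff.1 hl7
  have hdl7 : jacobiSym (d * l : ℕ) 7 = -1 := by
    push_cast
    rw [jacobiSym.mul_left, h7, hl7', one_mul]
  have hel7 : jacobiSym (D / d * l : ℕ) 7 = -1 := by
    rw [Nat.cast_mul, jacobiSym.mul_left, he7, hl7', one_mul]
  have hn7 : jacobiSym (nn D d l) 7 = -1 := by
    unfold nn
    split_ifs
    · exact hel7
    · exact hdl7
  have hn7' : jacobiSym (nn' D d l) 7 = -1 := by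
    unfold nn'
    split_ifs
    · exact hdl7
    · exact hel7
  have h7D : ¬ 7 ∣ D := jac_ne (by norm_num) (by rw [hD.2.2]; norm_num)
  have hrel := st_rel (N := 21) (D := D) (d := d) (l := l) (w := o3) (li := (l : ℤ) ^ 5) (κ := 24)
    (c := fun t => (cp (d * l : ℕ) t (D / d * l : ℕ) : ℤ) + cp7 (d * l : ℕ) t (D / d * l : ℕ))
    hd hl hl4 hlD o3_neg (fun t => by rw [cp21_neg, cp7_neg]) (by
      intro t m hm0 hm h84 htl
      have e1 := Pool.Agent.N816.RQ.t_C2Jp21 D d l (Or.inl hD) hd hs hl hc' hlD t m hm0 hm htl h84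
        h3 (Or.inl h7)
      rw [if_neg h7D] at e1
      have h7m : 7 ∣ m := dvd_trans (by norm_num) h84
      have hmz : (m : ℤ) = (nn D d l : ℕ) * (nn' D d l : ℕ) - t ^ 2 := by
        rw [hm]
        have : ((nn D d l * nn' D d l : ℕ) : ℤ) = ((D * l ^ 2 : ℕ) : ℤ) := by rw [f3]
        push_cast at this
        rw [this]
      have e2 := N973.P21.t_CP7 N878.PC21.t_PC (nn D d l) (nn' D d l) t m f1 f2 (sp7_iff.2 hn7)
        (sp7_iff.2 hn7') (hn3 hl3) hm0 h7m hmz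
      have e3 : (cp (d * l : ℕ) t (D / d * l : ℕ) : ℤ) + cp7 (d * l : ℕ) t (D / d * l : ℕ) =
          (cp (nn D d l) t (nn' D d l) : ℤ) + cp7 (nn D d l) t (nn' D d l) := by
        have h7z : (7 : ℤ) ∣ ((nn D d l : ℕ) : ℤ) * (nn' D d l : ℕ) - t ^ 2 := by
          rw [← hmz]
          exact_mod_cast h7m
        have s1 := sym21 (nn D d l) t (nn' D d l)
        have s2 := cp7_swap (jac_ne (by norm_num) (by rw [hn7]; norm_num))
          (jac_ne (by norm_num) (by rw [hn7']; norm_num)) h7z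
        unfold nn nn' at s1 s2 ⊢
        by_cases h : 2 ∣ d
        · rw [if_pos h, if_pos h] at s1 s2 ⊢
          rw [s1, s2]
        · rw [if_neg h, if_neg h]
      rw [e3, e2, e1]
      have e4 : N877.P21.loc7 (nn D d l) m = (m.factorization 7 : ℤ) * lcr (nn D d l) m 3 7 := rfl
      rw [e4]
      ring)
  rw [← ee_st hD.1 hd hs hl hc' hlD] at hrel
  have e5 : Pool.Agent.N969.RQ.ST 21 D l (fun t _ => o3 (t * l) * sj D d l t *
      ((cp (d * l : ℕ) t (D / d * l : ℕ) : ℤ) + cp7 (d * l : ℕ) t (D / d * l : ℕ))) =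
      Pool.Agent.N969.RQ.ST 21 D l (fun t _ => o3 (t * (l : ℤ) ^ 5) * sj D d l t *
      ((cp (d * l : ℕ) t (D / d * l : ℕ) : ℤ) + cp7 (d * l : ℕ) t (D / d * l : ℕ))) := by
    congr 1
    funext t _
    rw [o3_l hl3 t 5]
    have := o3_l hl3 t 1
    rw [pow_one] at this
    rw [this]
  rw [e5, hrel]
  linear_combination -4 * hE

/-- **key identity, `7 ∣ D`** -/
theorem keyr {D d l : ℕ} (hD : R21r D) (hd : Un D d) (hs : sgd D d = 1) (h3 : jacobiSym d 3 = 1)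
    (h7 : jacobiSym d 7 = 1 ∨ jacobiSym (D / d : ℕ) 7 = 1) (hl : l.Prime) (hc : Cls0 l)
    (hlD : ¬ l ∣ D) :
    12 * Pool.Agent.N969.RQ.ST 21 D l (fun t _ => o3 (t * l) * sj D d l t *
      (cp (d * l : ℕ) t (D / d * l : ℕ) : ℤ)) = -8 * (J 21 o3 D d 1 3 * cc l ^ 2) := by
  have hc' := hc
  obtain ⟨hls, hl4, hl3, hl7⟩ := hc
  obtain ⟨hprod, hD0, hd0, he0, hd3, he3, hn3⟩ := aux (l := l) hD.1 hD.2.1 hd h3
  obtain ⟨f1, f2, f3⟩ := nn_facts' hD.1 hd hs hl hl4 hlD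
  have hE : 36 * EE D d l = J 21 o3 D d 1 3 * cc l ^ 2 :=
    (Pool.Agent.N975.RQ.t_CMP21 D d l (Or.inr hD) hd hs hl hc').1
  have p7 : Nat.Prime 7 := by norm_num
  have hl7' : jacobiSym l 7 = -1 := sp7_iff.1 hl7
  have h7l : ¬ 7 ∣ l := jac_ne p7 (by rw [hl7']; norm_num)
  have hnot : ∀ n : ℕ, Squarefree n → ¬ 7 * 7 ∣ n := fun n hn h => by
    have := Nat.isUnit_iff.1 (hn 7 h)
    omega
  have hcase : (¬ 7 ∣ nn D d l ∧ jacobiSym (-(nn D d l : ℤ)) 7 = 1) ∨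
      (7 ∣ nn D d l ∧ jacobiSym (-(nn' D d l : ℤ)) 7 = 1 ∧ ¬ 7 * 7 ∣ nn D d l) := by
    have hcas : ∀ a b : ℕ, a * b = D → (jacobiSym a 7 = 1 ∨ jacobiSym b 7 = 1) →
        (¬ 7 ∣ a * l ∧ jacobiSym (-((a * l : ℕ) : ℤ)) 7 = 1) ∨
        (7 ∣ a * l ∧ jacobiSym (-((b * l : ℕ) : ℤ)) 7 = 1) := by
      intro a b hab h
      rcases h with h | h
      · left
        have h1 : jacobiSym (a * l : ℕ) 7 = -1 := by
          rw [Nat.cast_mul, jacobiSym.mul_left, h, hl7', one_mul]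
        exact ⟨jac_ne p7 (by rw [h1]; norm_num), neg7 h1⟩
      · right
        have h1 : jacobiSym (b * l : ℕ) 7 = -1 := by
          rw [Nat.cast_mul, jacobiSym.mul_left, h, hl7', one_mul]
        have h2 : ¬ 7 ∣ b := jac_ne p7 (by rw [h]; norm_num)
        have h4 : 7 ∣ a * b := by rw [hab]; exact hD.2.2
        refine ⟨((Nat.Prime.dvd_mul p7).1 h4 |>.resolve_right h2).mul_right l, neg7 h1⟩
    by_cases h : 2 ∣ d
    · have := hcas (D / d) d (by rw [mul_comm]; exact hprod) h7.symm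
      have hn := hnot _ f1
      unfold nn nn' at *
      rw [if_pos h] at hn ⊢
      rw [if_pos h]
      rcases this with h5 | h5
      · exact Or.inl h5
      · exact Or.inr ⟨h5.1, h5.2, hn⟩
    · have := hcas d (D / d) hprod h7
      have hn := hnot _ f1
      unfold nn nn' at *
      rw [if_neg h] at hn ⊢
      rw [if_neg h]
      rcases this with h5 | h5
      · exact Or.inl h5
      · exact Or.inr ⟨h5.1, h5.2, hn⟩
  have hrel := st_rel (N := 21) (D := D) (d := d) (l := l) (w := o3) (li := (l : ℤ) ^ 5) (κ := 24)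
    (c := fun t => (cp (d * l : ℕ) t (D / d * l : ℕ) : ℤ))
    hd hl hl4 hlD o3_neg (fun t => by rw [cp21_neg]) (by
      intro t m hm0 hm h84 htl
      have e1 := Pool.Agent.N816.RQ.t_C2Jp21 D d l (Or.inr hD) hd hs hl hc' hlD t m hm0 hm htl h84
        h3 h7
      rw [if_pos hD.2.2, one_mul] at e1
      have h7m : 7 ∣ m := dvd_trans (by norm_num) h84
      have hmz : (m : ℤ) = (nn D d l : ℕ) * (nn' D d l : ℕ) - t ^ 2 := by
        rw [hm]
        have : ((nn D d l * nn' D d l : ℕ) : ℤ) = ((D * l ^ 2 : ℕ) : ℤ) := by rw [f3]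
        push_cast at this
        rw [this]
      have e2 := N878.PC21.t_PC (nn D d l) (nn' D d l) t m f1 f2 (hn3 hl3) hm0 hmz
      have e3 : (cp (d * l : ℕ) t (D / d * l : ℕ) : ℤ) = (cp (nn D d l) t (nn' D d l) : ℤ) := by
        have s1 := sym21 (nn D d l) t (nn' D d l)
        unfold nn nn' at s1 ⊢
        by_cases h : 2 ∣ d
        · rw [if_pos h, if_pos h] at s1 ⊢
          rw [s1]
        · rw [if_neg h, if_neg h]
      obtain ⟨g1, g2⟩ := fact_one hD.1 p7 (by norm_num) hD.2.2 h7l hm0 hm h7m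
      have e4 : N877.P21.loc (nn D d l) m = 2 * lcr (nn D d l) m 3 7 := by
        have h5 := lcr_mul (n := nn D d l) (m := m) (p := 3) (r := 7) p7 h7m (by norm_num)
          (by norm_num) hm0.ne'
        rw [fac_two p7 g2 hmz g1 hcase] at h5
        exact h5
      rw [e3, e2, e1, e4]
      ring)
  rw [← ee_st hD.1 hd hs hl hc' hlD] at hrel
  have e5 : Pool.Agent.N969.RQ.ST 21 D l (fun t _ => o3 (t * l) * sj D d l t *
      (cp (d * l : ℕ) t (D / d * l : ℕ) : ℤ)) =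
      Pool.Agent.N969.RQ.ST 21 D l (fun t _ => o3 (t * (l : ℤ) ^ 5) * sj D d l t *
      (cp (d * l : ℕ) t (D / d * l : ℕ) : ℤ)) := by
    congr 1
    funext t _
    rw [o3_l hl3 t 5]
    have := o3_l hl3 t 1
    rw [pow_one] at this
    rw [this]
  rw [e5, hrel]
  linear_combination -8 * hE

end Pool.Agent.N218.RQ.F21
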