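import Pool.Agent.N218.RQ.Val21
import Pool.Agent.N969.RQ.Defs4
import Pool.Agent.N970.RQ.Eis7
import Pool.Agent.N970.P21G.CP3

/-!
# RQ: the crossing numbers of level 21 with the orientation at 7
-/

set_option autoImplicit false

open Finset

namespace Pool.Agent.N218.RQ.F21n

open Pool.Agent.N969.RQ
open Pool.Agent.N969.P15 (un V3 tw Qc)
open Pool.Agent.N970.RQ (nn_facts' Un_ndvd o7_neg o7_mod c7_neg c7_symm)
open N877.P21 (cc Sp7 Cls0)
open Pool.Agent.N877.P21G (Ai K0 P7 cp3 L37 I7 Fn)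
open Pool.Agent.N218.RQ.F21 (cc_ne exists_l jac3 inv21 sp7_iff)

/-- pairs with a common line, exchanged -/
theorem cp3_swap {n1 n2 : ℕ} {b : ℤ} (h1 : ¬ 3 ∣ n1) (h2 : ¬ 3 ∣ n2)
    (hb : (3 : ℤ) ∣ n1 * n2 - b ^ 2) : cp3 n1 b n2 = cp3 n2 b n1 := by
  have p3 : Prime (3 : ℤ) := Nat.prime_iff_prime_int.1 (by norm_num)
  have key : ∀ (m1 m2 : ℕ) (v w : ℤ), ¬ 3 ∣ m2 → (3 : ℤ) ∣ m1 * m2 - b ^ 2 →
      (3 : ℤ) ∣ m2 * v - b * w → (3 : ℤ) ∣ m1 * w - b * v := by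
    intro m1 m2 v w h hb h3
    have h4 : (3 : ℤ) ∣ m2 * (m1 * w - b * v) := by
      have h5 := dvd_sub (hb.mul_right w) (h3.mul_left b)
      have e : (m1 * m2 - b ^ 2) * w - b * (m2 * v - b * w) = (m2 : ℤ) * (m1 * w - b * v) := by ring
      rwa [e] at h5
    rcases p3.dvd_or_dvd h4 with h5 | h5
    · exact absurd (by exact_mod_cast h5) h
    · exact h5
  unfold cp3
  refine card_nbij' (fun q => (q.2, q.1)) (fun q => (q.2, q.1)) ?_ ?_ ?_ ?_
  · rintro ⟨v, w⟩ hq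
    rw [Finset.mem_coe, mem_filter, mem_product] at hq ⊢
    refine ⟨⟨hq.1.2, hq.1.1⟩, ?_, fun i => key _ _ _ _ h2 hb (hq.2.2 i)⟩
    have := hq.2.1
    unfold ip7 at this ⊢
    simp only at this ⊢
    linarith
  · rintro ⟨v, w⟩ hq
    rw [Finset.mem_coe, mem_filter, mem_product] at hq ⊢
    refine ⟨⟨hq.1.2, hq.1.1⟩, ?_, fun i => key n2 n1 _ _ h1 (by
      rw [mul_comm]; exact hb) (hq.2.2 i)⟩
    have := hq.2.1
    unfold ip7 at this ⊢
    simp only at this ⊢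
    linarith
  · rintro ⟨v, w⟩ _
    rfl
  · rintro ⟨v, w⟩ _
    rfl

theorem cp3_neg (a b c : ℤ) : cp3 a (-b) c = cp3 a b c := by
  have h : ∀ (n : ℤ) (v : V3), v ∈ vec7 n → -v ∈ vec7 n := by
    intro n v hv
    unfold vec7 at hv ⊢
    rw [mem_filter, Fintype.mem_piFinset] at hv ⊢
    refine ⟨fun i => ?_, ?_⟩
    · have := Finset.mem_Icc.1 (hv.1 i)
      rw [Finset.mem_Icc, Pi.neg_apply]
      omega
    · rw [← hv.2]
      unfold ip7
      simp only [Pi.neg_apply]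
      ring
  unfold cp3
  refine card_nbij' (fun q => (-q.1, q.2)) (fun q => (-q.1, q.2)) ?_ ?_ ?_ ?_
  · rintro ⟨v, w⟩ hq
    rw [Finset.mem_coe, mem_filter, mem_product] at hq ⊢
    refine ⟨⟨h _ _ hq.1.1, hq.1.2⟩, ?_, fun i => ?_⟩
    · have := hq.2.1
      unfold ip7 at this ⊢
      simp only [Pi.neg_apply]
      linarith
    · have := dvd_neg.2 (hq.2.2 i)
      have e : -(c * v i - -b * w i) = c * (-v) i - b * w i := by
        rw [Pi.neg_apply]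
        ring
      rwa [e] at this
  · rintro ⟨v, w⟩ hq
    rw [Finset.mem_coe, mem_filter, mem_product] at hq ⊢
    refine ⟨⟨h _ _ hq.1.1, hq.1.2⟩, ?_, fun i => ?_⟩
    · have := hq.2.1
      unfold ip7 at this ⊢
      simp only [Pi.neg_apply]
      linarith
    · have := dvd_neg.2 (hq.2.2 i)
      have e : -(c * v i - b * w i) = c * (-v) i - -b * w i := by
        rw [Pi.neg_apply]
        ring
      rwa [e] at this
  · rintro ⟨v, w⟩ _
    simp
  · rintro ⟨v, w⟩ _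
    simp

/-- the sum over the cusps `u / l` -/
noncomputable def EE (D d l : ℕ) : ℤ := ∑ u ∈ un l, jacobiSym u l * J 21 o7 D d u l

theorem ee_st {D d l : ℕ} (hD : Fd D) (hd : Un D d) (hs : sgd D d = 1) (hl : l.Prime)
    (hc : Cls0 l) (hlD : ¬ l ∣ D) : EE D d l =
      Pool.Agent.N969.RQ.ST 21 D l fun t m => o7 (t * (l : ℤ) ^ 5) * Wp 21 D d l t m := by
  obtain ⟨-, hl4, hl3, hl7⟩ := hc
  exact Pool.Agent.N975.RQ.t_C1Jp 21 o7 D d l ((l : ℤ) ^ 5) (by norm_num) hD hd hs hl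
    (by rintro rfl; omega) (by
      intro h
      have h1 : l ≤ 21 := Nat.le_of_dvd (by norm_num) h
      unfold Sp7 at hl7
      interval_cases l <;> omega) hlD
    (fun a b h => o7_mod a b (dvd_trans (by norm_num) h)) (inv21 hl3 hl7)

theorem i7_iff {n : ℕ} (h : jacobiSym n 7 = 1) : I7 n := by
  unfold I7
  have h0 : n % 7 < 7 := Nat.mod_lt _ (by norm_num)
  rw [F21.jac7] at h
  generalize n % 7 = k at h h0
  interval_cases k <;> norm_num at h <;> omega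

theorem L37_lcr {n m : ℕ} (b : ℤ) (hn : ¬ 2 ∣ n) :
    L37 n b m = (m.factorization 3 : ℤ) * lcr n m 7 3 := by
  unfold L37 lcr Pool.Agent.N877.P21G.dt
  rw [if_neg hn, Finset.erase_right_comm (a := 3) (b := 7)]
  split_ifs <;> ring

/-- **key identity** -/
theorem key {D d l : ℕ} (hD : R21 D) (hd : Un D d) (hs : sgd D d = 1) (h3 : jacobiSym d 3 = -1)
    (h7 : jacobiSym d 7 = -1) (he3 : jacobiSym (D / d : ℕ) 3 = -1)
    (he7 : jacobiSym (D / d : ℕ) 7 = -1) (hl : l.Prime) (hc : Cls0 l) (hlD : ¬ l ∣ D) :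
    9 * Pool.Agent.N969.RQ.ST 21 D l (fun t _ => o7 (t * l ^ 5) * sj D d l t *
      ((c7 (d * l : ℕ) t (D / d * l : ℕ) : ℤ) + cp3 (d * l : ℕ) t (D / d * l : ℕ))) =
      -2 * (J 21 o7 D d 1 3 * cc l ^ 2) := by
  have hc' := hc
  obtain ⟨hls, hl4, hl3, hl7⟩ := hc
  obtain ⟨f1, f2, f3⟩ := nn_facts' hD.1 hd hs hl hl4 hlD
  have hE : 36 * EE D d l = J 21 o7 D d 1 3 * cc l ^ 2 :=
    (Pool.Agent.N975.RQ.t_CMP21 D d l (Or.inl hD) hd hs hl hc').2 hD
  have hl7' : jacobiSym l 7 = -1 := sp7_iff.1 hl7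
  have hl3' : jacobiSym l 3 = 1 := jac3 hl3
  have hdl7 : jacobiSym (d * l : ℕ) 7 = 1 := by
    rw [Nat.cast_mul, jacobiSym.mul_left, h7, hl7']
    norm_num
  have hel7 : jacobiSym (D / d * l : ℕ) 7 = 1 := by
    rw [Nat.cast_mul, jacobiSym.mul_left, he7, hl7']
    norm_num
  have m3 : ∀ n : ℕ, jacobiSym n 3 = -1 → n % 3 = 2 := by
    intro n hn
    rcases (by omega : n % 3 = 0 ∨ n % 3 = 1 ∨ n % 3 = 2) with h2 | h2 | h2
    · exfalso
      rw [jac_zero (by norm_num) (Nat.dvd_of_mod_eq_zero h2)] at hn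
      norm_num at hn
    · rw [jac3 h2] at hn
      norm_num at hn
    · exact h2
  have hdl3 : d * l % 3 = 2 := by rw [Nat.mul_mod, m3 d h3, hl3]
  have hel3 : D / d * l % 3 = 2 := by rw [Nat.mul_mod, m3 _ he3, hl3]
  have hn7 : jacobiSym (nn D d l) 7 = 1 := by
    unfold nn
    split_ifs
    · exact hel7
    · exact hdl7
  have hn3 : nn D d l % 3 = 2 := by
    unfold nn
    split_ifs
    · exact hel3
    · exact hdl3
  have hn3' : nn' D d l % 3 = 2 := by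
    unfold nn'
    split_ifs
    · exact hdl3
    · exact hel3
  have hn2 : ¬ 2 ∣ nn D d l := by omega
  have hrel := st_rel (N := 21) (D := D) (d := d) (l := l) (w := o7) (li := (l : ℤ) ^ 5) (κ := 8)
    (c := fun t => (c7 (d * l : ℕ) t (D / d * l : ℕ) : ℤ) + cp3 (d * l : ℕ) t (D / d * l : ℕ))
    hd hl hl4 hlD o7_neg (fun t => by rw [c7_neg, cp3_neg]) (by
      intro t m hm0 hm h84 htl
      have e1 := Pool.Agent.N816.RQ.t_C2Jp21n D d l hD hd hs hl hc' hlD t m hm0 hm htl h84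
        h3 h7
      have h3m : 3 ∣ m := dvd_trans (by norm_num) h84
      have hmz : (m : ℤ) = (nn D d l : ℕ) * (nn' D d l : ℕ) - t ^ 2 := by
        rw [hm]
        have : ((nn D d l * nn' D d l : ℕ) : ℤ) = ((D * l ^ 2 : ℕ) : ℤ) := by rw [f3]
        push_cast at this
        rw [this]
      have e2 := Pool.Agent.N970.P21G.t_CP3 (nn D d l) (nn' D d l) t m (Or.inl ⟨f1, f2⟩)
        (fun h => absurd h hn2) hn3 (i7_iff hn7) hn3' hm0 h3m hmz
      have e3 : (c7 (d * l : ℕ) t (D / d * l : ℕ) : ℤ) + cp3 (d * l : ℕ) t (D / d * l : ℕ) =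
          (c7 (nn D d l) t (nn' D d l) : ℤ) + cp3 (nn D d l) t (nn' D d l) := by
        have h3z : (3 : ℤ) ∣ ((nn D d l : ℕ) : ℤ) * (nn' D d l : ℕ) - t ^ 2 := by
          rw [← hmz]
          exact_mod_cast h3m
        have s1 := c7_symm (nn D d l) t (nn' D d l)
        have s2 := cp3_swap (by omega : ¬ 3 ∣ nn D d l) (by omega : ¬ 3 ∣ nn' D d l) h3z
        unfold nn nn' at s1 s2 ⊢
        by_cases h : 2 ∣ d
        · rw [if_pos h, if_pos h] at s1 s2 ⊢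
          rw [s1, s2]
        · rw [if_neg h, if_neg h]
      rw [e3, e2, e1, L37_lcr t hn2]
      ring)
  rw [← ee_st hD.1 hd hs hl hc' hlD] at hrel
  rw [hrel]
  linear_combination -2 * hE

/-- **FAC21n** -/
theorem s_FAC21n (hB : S_BILJ21n) : S_FAC21n := by
  intro D d hD hd hs hA hA' c c' hcd hce
  have hD0 : 0 < D := by have := hD.1.1; omega
  have jm3 : ∀ n : ℕ, n % 3 = 2 → jacobiSym n 3 = -1 := by
    intro n h
    have : jacobiSym n 3 = jacobiSym 2 3 := by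
      apply jacobiSym.mod_left'
      omega
    rw [this]
    norm_num
  obtain ⟨l, hl, hc, hlD⟩ := exists_l D hD0
  obtain ⟨hld, hle⟩ := Un_ndvd hd hlD
  obtain ⟨Z, R, h1, h2⟩ := hB l hl hc
  have h3 := jm3 d hA.2.1
  have he3 := jm3 _ hA'.2.1
  obtain ⟨g1, g2⟩ := h1 D d hD hlD hd hs h3 hA.2.2
  have hl7' : jacobiSym l 7 = -1 := sp7_iff.1 hc.2.2.2
  have hz := Pool.Agent.N970.RQ.s_EISJ7p Pool.Agent.N816.RQ.t_C2Jpp D d l hD.1 hD.2.2 hd hs hl
    hc.2.1 (by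
      rintro rfl
      have := hc.2.2.2
      unfold Sp7 at this
      omega) hlD (by
      have e : (-((d * l : ℕ) : ℤ)) = (-1) * (d * l) := by push_cast; ring
      rw [e, jacobiSym.mul_left, jacobiSym.mul_left, hA.2.2, hl7',
        show jacobiSym (-1) 7 = -1 by norm_num]
      norm_num)
  rw [hz] at g1
  have hk := key hD hd hs h3 hA.2.2 he3 hA'.2.2 hl hc hlD
  have hcc := cc_ne hl hc
  have hsq : 81 * (Z d * Z (D / d)) ^ 2 = 4 * (J 21 o7 D d 1 3 * cc l ^ 2) ^ 2 := by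
    rcases g2 with h | h
    · rw [h, ← g1, zero_add] at hk
      linear_combination (9 * (Z d * Z (D / d)) - 2 * (J 21 o7 D d 1 3 * cc l ^ 2)) * hk
    · rw [h, ← g1, zero_sub] at hk
      linear_combination (-9 * (Z d * Z (D / d)) - 2 * (J 21 o7 D d 1 3 * cc l ^ 2)) * hk
  have q1 := hcd l ((Nat.Prime.coprime_iff_not_dvd hl).2 hld).symm (Or.inl hc)
  have q2 := hce l ((Nat.Prime.coprime_iff_not_dvd hl).2 hle).symm (Or.inl hc)
  rw [h2 d hld hA] at q1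
  rw [h2 (D / d) hle hA'] at q2
  have hccq : ((cc l : ℤ) : ℚ) ≠ 0 := by exact_mod_cast hcc
  have hsq' : (81 : ℚ) * ((Z d : ℚ) * (Z (D / d) : ℚ)) ^ 2 =
      4 * ((J 21 o7 D d 1 3 : ℚ) * (cc l : ℚ) ^ 2) ^ 2 := by exact_mod_cast hsq
  push_cast at q1 q2
  have h5 : ((cc l : ℤ) : ℚ) ^ 4 ≠ 0 := pow_ne_zero 4 hccq
  apply mul_left_cancel₀ h5
  have e : (81 : ℚ) * ((Z d : ℚ) * (Z (D / d) : ℚ)) ^ 2 =
      81 * (((Z d : ℤ) : ℚ) ^ 2 * ((Z (D / d) : ℤ) : ℚ) ^ 2) := by ring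
  rw [e, q1, q2] at hsq'
  linear_combination -hsq'

end Pool.Agent.N218.RQ.F21n
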