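import Pool.Agent.N218.RQ.Fac21
import Pool.Agent.N975.RQ.DuE
import Pool.Agent.N974.RQ.C1D

/-!
# RQ: the values of the definite sums, FAC21, NV21
-/

set_option autoImplicit false

open Finset

namespace Pool.Agent.N218.RQ.F21

open Pool.Agent.N969.RQ
open Pool.Agent.N969.P15 (un V3 tw Qc)
open Pool.Agent.N970.RQ (nn_facts' Un_ndvd)
open Pool.Agent.N969.P17G (chP)
open N877.P21 (cc rr cp cp7 Sp7 Cls0 vec ip)

theorem cc_ne {l : ℕ} (hl : l.Prime) (hc : Cls0 l) : cc l ≠ 0 := by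
  obtain ⟨y, h1, h2⟩ := N975.S21.All.s_PAR l (Or.inl hc)
  have h3 : Odd y := h2.2 (qc_prime hl)
  rw [h1]
  refine mul_ne_zero (by positivity) ?_
  rintro rfl
  simp at h3

theorem rr_ne {l : ℕ} (hl : l.Prime) (hc : Cls0 l) : rr l ≠ 0 := by
  obtain ⟨g, h1, h2⟩ := N693.P21.R.t_R l hc.1 hc.2.1 hc.2.2.1
  have h3 : Odd g := h2.2 (qc_prime hl)
  rw [h1]
  refine mul_ne_zero (by positivity) ?_
  rintro rfl
  simp at h3

/-- auxiliary primes exist -/
theorem exists_l (D : ℕ) (hD : 0 < D) : ∃ l : ℕ, l.Prime ∧ Cls0 l ∧ ¬ l ∣ D := by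
  obtain ⟨l, h1, h2, h3⟩ := Nat.forall_exists_prime_gt_and_eq_mod (q := 84) (a := (31 : ZMod 84))
    ((ZMod.isUnit_iff_coprime 31 84).2 (by norm_num)) D
  have h4 : l % 84 = 31 := by
    have h5 : ((l : ℕ) : ZMod 84) = ((31 : ℕ) : ZMod 84) := by rw [h3]; rfl
    rw [ZMod.natCast_eq_natCast_iff'] at h5
    exact h5
  refine ⟨l, h2, ⟨h2.squarefree, by omega, by omega, by unfold Sp7; omega⟩, fun h => ?_⟩
  exact absurd (Nat.le_of_dvd hD h) (by omega)

/-- the definite side for one auxiliary prime -/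
structure Df (l : ℕ) (Z R : ℕ → ℤ) : Prop where
  z1 : Z 1 = cc l
  r1 : R 1 = rr l
  a : ∀ D d : ℕ, (R21 D ∨ R21r D) → ¬ l ∣ D → Un D d → sgd D d = 1 → jacobiSym d 3 = 1 →
    ST 3 D l (fun t _ => o3 (t * l) * sj D d l t *
      (N877.P21.cp (d * l : ℕ) t (D / d * l : ℕ) : ℤ)) = R d * R (D / d) ∧
    (R21 D → jacobiSym d 7 = 1 → 6 * ST 21 D l (fun t _ => o3 (t * l) * sj D d l t *
      ((N877.P21.cp (d * l : ℕ) t (D / d * l : ℕ) : ℤ) +
        N877.P21.cp7 (d * l : ℕ) t (D / d * l : ℕ))) = 3 * (R d * R (D / d)) + Z d * Z (D / d)) ∧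
    (R21r D → (jacobiSym d 7 = 1 ∨ jacobiSym (D / d : ℕ) 7 = 1) →
      12 * ST 21 D l (fun t _ => o3 (t * l) * sj D d l t *
        (N877.P21.cp (d * l : ℕ) t (D / d * l : ℕ) : ℤ)) =
        3 * (R d * R (D / d)) + Z d * Z (D / d))
  b : ∀ A : ℕ, ¬ l ∣ A →
    (R21 A → 576 * ∑ T ∈ (range (A * l)).filter (fun T => 3 ∣ T ∧ 7 ∣ A * l - T),
      sl A l T * ld21 (A * l) T = 3 * R A ^ 2 + Z A ^ 2) ∧
    (R21r A → 576 * ∑ T ∈ (range (A * l)).filter (fun T => 3 ∣ T ∧ ¬ 7 ∣ T),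
      sl A l T * ld21r (A * l) T = 21 * R A ^ 2 - Z A ^ 2)

variable {l : ℕ} {Z R : ℕ → ℤ}

theorem rr_zero (h : Df l Z R) (hl : l.Prime) (hc : Cls0 l) {D d : ℕ} (hD : R21 D ∨ R21r D)
    (hlD : ¬ l ∣ D) (hd : Un D d) (hs : sgd D d = 1) (h3 : jacobiSym d 3 = 1) :
    R d * R (D / d) = 0 := by
  have hF : Fd D ∧ D % 3 = 1 := by
    rcases hD with h | h
    · exact ⟨h.1, h.2.1⟩
    · exact ⟨h.1, h.2.1⟩
  have h1 := s_EISJ3p Pool.Agent.N816.RQ.t_C2Jpp D d l hF.1 hF.2 hd hs hl hc.2.1 (by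
    rintro rfl
    have := hc.2.2.1
    omega) hlD (by
      have e : (-((d * l : ℕ) : ℤ)) = (-1) * (d * l) := by push_cast; ring
      rw [e, jacobiSym.mul_left, jacobiSym.mul_left, h3, jac3 hc.2.2.1,
        show jacobiSym (-1) 3 = -1 by norm_num]
      norm_num)
  rw [← (h.a D d hD hlD hd hs h3).1]
  exact h1

/-- the product of the definite sums -/
theorem zz (h : Df l Z R) (hl : l.Prime) (hc : Cls0 l) {D d : ℕ} (hD : R21 D)
    (hlD : ¬ l ∣ D) (hd : Un D d) (hs : sgd D d = 1) (h3 : jacobiSym d 3 = 1)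
    (h7 : jacobiSym d 7 = 1) : Z d * Z (D / d) = -4 * (J 21 o3 D d 1 3 * cc l ^ 2) := by
  have h1 := rr_zero h hl hc (Or.inl hD) hlD hd hs h3
  have h2 := (h.a D d (Or.inl hD) hlD hd hs h3).2.1 hD h7
  have h3 := key hD hd hs h3 h7 hl hc hlD
  rw [h2, h1] at h3
  linarith

theorem zzr (h : Df l Z R) (hl : l.Prime) (hc : Cls0 l) {D d : ℕ} (hD : R21r D)
    (hlD : ¬ l ∣ D) (hd : Un D d) (hs : sgd D d = 1) (h3 : jacobiSym d 3 = 1)
    (h7 : jacobiSym d 7 = 1 ∨ jacobiSym (D / d : ℕ) 7 = 1) :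
    Z d * Z (D / d) = -8 * (J 21 o3 D d 1 3 * cc l ^ 2) := by
  have h1 := rr_zero h hl hc (Or.inr hD) hlD hd hs h3
  have h2 := (h.a D d (Or.inr hD) hlD hd hs h3).2.2 hD h7
  have h3 := keyr hD hd hs h3 h7 hl hc hlD
  rw [h2, h1] at h3
  linarith

theorem r_zero (h : Df l Z R) (hl : l.Prime) (hc : Cls0 l) {D : ℕ} (hD : R21 D ∨ R21r D)
    (hlD : ¬ l ∣ D) : R D = 0 := by
  have h1 := rr_zero h hl hc hD hlD (un_one D) (sgd_one D) (by norm_num)
  rw [Nat.div_one, h.r1] at h1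
  rcases mul_eq_zero.1 h1 with h2 | h2
  · exact absurd h2 (rr_ne hl hc)
  · exact h2

theorem z_val (h : Df l Z R) (hl : l.Prime) (hc : Cls0 l) {D : ℕ} (hD : R21 D)
    (hlD : ¬ l ∣ D) : Z D = -4 * (J 21 o3 D 1 1 3 * cc l) := by
  have h1 := zz h hl hc hD hlD (un_one D) (sgd_one D) (by norm_num) (by norm_num)
  rw [Nat.div_one, h.z1] at h1
  apply mul_left_cancel₀ (cc_ne hl hc)
  rw [h1]
  ring

theorem z_valr (h : Df l Z R) (hl : l.Prime) (hc : Cls0 l) {D : ℕ} (hD : R21r D)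
    (hlD : ¬ l ∣ D) : Z D = -8 * (J 21 o3 D 1 1 3 * cc l) := by
  have h1 := zzr h hl hc hD hlD (un_one D) (sgd_one D) (by norm_num) (Or.inl (by norm_num))
  rw [Nat.div_one, h.z1] at h1
  apply mul_left_cancel₀ (cc_ne hl hc)
  rw [h1]
  ring

theorem df_of (hB : S_BILJ21) (hl : l.Prime) (hc : Cls0 l) : ∃ Z R : ℕ → ℤ, Df l Z R := by
  obtain ⟨Z, R, h1, h2, h3, h4⟩ := hB l hl hc
  exact ⟨Z, R, h1, h2, h3, h4⟩

/-- **FAC21** -/
theorem s_FAC21 (hB : S_BILJ21) : S_FAC21 := by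
  intro D d hD hd hs h1 h2 h3 h7 h7'
  have hF : Fd D := by
    rcases hD with h | h
    · exact h.1
    · exact h.1
  have hD3 : D % 3 = 1 := by
    rcases hD with h | h
    · exact h.2.1
    · exact h.2.1
  obtain ⟨hprod, hD0, hd0, he0, hd3, he3, -⟩ := aux (l := 0) hF hD3 hd h3
  obtain ⟨Fd1, Fe1⟩ := fd_both hF hd hs h1 h2
  obtain ⟨l, hl, hc, hlD⟩ := exists_l D hD0
  obtain ⟨hld, hle⟩ := Un_ndvd hd hlD
  obtain ⟨Z, R, h⟩ := df_of hB hl hc
  have hcc := cc_ne hl hc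
  have p7 : Nat.Prime 7 := by norm_num
  have hmul : jacobiSym d 7 * jacobiSym (D / d : ℕ) 7 = jacobiSym D 7 := by
    rw [← jacobiSym.mul_left]
    congr 1
    exact_mod_cast hprod
  have tri : ∀ n : ℕ, jacobiSym n 7 ≠ -1 → ¬ 7 ∣ n → jacobiSym n 7 = 1 := by
    intro n hn h7n
    rcases jacobiSym.trichotomy n 7 with h5 | h5 | h5
    · exfalso
      rw [jacobiSym.eq_zero_iff_not_coprime, Int.gcd_natCast_natCast] at h5
      exact h5 ((Nat.Prime.coprime_iff_not_dvd p7).2 h7n).symm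
    · exact h5
    · exact absurd h5 hn
  rcases hD with hD | hD
  · have h7D : ¬ 7 ∣ D := jac_ne p7 (by rw [hD.2.2]; norm_num)
    have a1 := tri d h7 (fun h5 => h7D (h5.trans hd.1))
    have a2 := tri (D / d) h7' (fun h5 => h7D (h5.trans (Nat.div_dvd_of_dvd hd.1)))
    have b1 := zz h hl hc hD hlD hd hs h3 a1
    rw [z_val h hl hc (D := d) ⟨Fd1, hd3, a1⟩ hld, z_val h hl hc (D := D / d) ⟨Fe1, he3, a2⟩ hle] at b1
    have h5 : (4 * cc l ^ 2) ≠ 0 := mul_ne_zero (by norm_num) (pow_ne_zero 2 hcc)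
    apply mul_left_cancel₀ h5
    linear_combination b1
  · have h7D : 7 ∣ d * (D / d) := by rw [hprod]; exact hD.2.2
    have h5 : (8 * cc l ^ 2) ≠ 0 := mul_ne_zero (by norm_num) (pow_ne_zero 2 hcc)
    rcases (Nat.Prime.dvd_mul p7).1 h7D with h6 | h6
    · have h7e : ¬ 7 ∣ D / d := fun h8 => by
        have := Nat.dvd_gcd h6 h8
        have hcop : Nat.gcd d (D / d) = 1 := hd.2
        rw [hcop] at this
        omega
      have a2 := tri (D / d) h7' h7e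
      have b1 := zzr h hl hc hD hlD hd hs h3 (Or.inr a2)
      rw [z_valr h hl hc (D := d) ⟨Fd1, hd3, h6⟩ hld, z_val h hl hc (D := D / d) ⟨Fe1, he3, a2⟩ hle]
        at b1
      apply mul_left_cancel₀ h5
      linear_combination b1
    · have h7e : ¬ 7 ∣ d := fun h8 => by
        have := Nat.dvd_gcd h8 h6
        have hcop : Nat.gcd d (D / d) = 1 := hd.2
        rw [hcop] at this
        omega
      have a2 := tri d h7 h7e
      have b1 := zzr h hl hc hD hlD hd hs h3 (Or.inl a2)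
      rw [z_val h hl hc (D := d) ⟨Fd1, hd3, a2⟩ hld, z_valr h hl hc (D := D / d) ⟨Fe1, he3, h6⟩ hle]
        at b1
      apply mul_left_cancel₀ h5
      linear_combination b1

theorem J_zero (N : ℕ) (w : ℤ → ℤ) (d : ℕ) (x M : ℤ) {A : ℕ} (hA : A = 0) :
    J N w A d x M = 0 := by
  subst hA
  unfold J
  rw [finsum_eq_zero_of_forall_eq_zero]
  rintro ⟨a, b, c⟩
  rw [if_neg]
  rintro ⟨h1, -, h2, h3⟩
  simp only at h1 h2 h3
  have h4 : 4 * a * (a * x ^ 2 + b * x * M + c * M ^ 2) = (2 * a * x + b * M) ^ 2 := by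
    have h5 : b ^ 2 = 4 * a * c := by
      have : ((0 : ℕ) : ℤ) = 0 := rfl
      rw [this] at h1
      linarith
    linear_combination (-(M ^ 2)) * h5
  nlinarith [sq_nonneg (2 * a * x + b * M)]

/-- **NV21** -/
theorem s_NV21 (hB : S_BILJ21) : S_NV21 := by
  intro A hJ
  by_cases hA0 : 0 < A
  · obtain ⟨l, hl, hc, hlA⟩ := exists_l A hA0
    obtain ⟨Z, R, h⟩ := df_of hB hl hc
    have hcc := cc_ne hl hc
    have hl3 : l ≠ 3 := by
      rintro rfl
      have := hc.2.2.1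
      omega
    have hl7 : l ≠ 7 := by
      rintro rfl
      have := hc.2.2.2
      unfold Sp7 at this
      omega
    have n3 : ∀ n : ℕ, n % 3 = 1 → ¬ 3 ∣ n := fun n hn => by omega
    refine ⟨l, hl, hc, hlA, fun hA => ?_, fun hA => ?_⟩
    · have h7A : ¬ 7 ∣ A := jac_ne (by norm_num) (by rw [hA.2.2]; norm_num)
      rw [Pool.Agent.N974.RQ.t_C1D 7 3 A l (by norm_num) (by norm_num) (by norm_num) (by norm_num)
        (by norm_num) hA.1 hl hc.2.1 hl7 hl3 hlA (n3 A hA.2.1) h7A]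
      have e : ∀ T ∈ (range (A * l)).filter (fun T => 3 ∣ T ∧ 7 ∣ A * l - T),
          WD 7 3 A l (A * l - T) T = - (sl A l T * ld21 (A * l) T) := by
        intro T hT
        rw [mem_filter, mem_range] at hT
        have hT0 : 0 < T := by
          rcases Nat.eq_zero_or_pos T with h0 | h0
          · exfalso
            rw [h0, Nat.sub_zero] at hT
            rcases (Nat.Prime.dvd_mul (by norm_num : Nat.Prime 7)).1 hT.2.2 with h5 | h5
            · exact h7A h5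
            · exact hl7 ((Nat.prime_dvd_prime_iff_eq (by norm_num) hl).1 h5).symm
          · exact h0
        exact Pool.Agent.N975.RQ.Du.t_C2D21 A l hA hl hc hlA T hT0 hT.1 hT.2.1 hT.2.2
      rw [sum_congr rfl e, sum_neg_distrib]
      have h5 := (h.b A hlA).1 hA
      rw [r_zero h hl hc (Or.inl hA) hlA, z_val h hl hc hA hlA] at h5
      intro h6
      have h7 : (J 21 o3 A 1 1 3 * cc l) ^ 2 = 0 := by linarith
      exact mul_ne_zero hJ hcc (pow_eq_zero_iff (two_ne_zero)|>.1 h7)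
    · rw [Pool.Agent.N974.RQ.t_C1Dr 7 3 A l (by norm_num) (by norm_num) (by norm_num) (by norm_num)
        (by norm_num) hA.1 hl hc.2.1 hl7 hl3 hlA (n3 A hA.2.1) hA.2.2]
      have e : ∀ T ∈ (range (A * l)).filter (fun T => 3 ∣ T ∧ ¬ 7 ∣ T),
          WDr 7 3 A l (A * l - T) T = - (sl A l T * ld21r (A * l) T) := by
        intro T hT
        rw [mem_filter, mem_range] at hT
        have hT0 : 0 < T := Nat.pos_of_ne_zero fun h0 => hT.2.2 (by rw [h0]; exact dvd_zero 7)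
        exact Pool.Agent.N975.RQ.Du.t_C2D21r A l hA hl hc hlA T hT0 hT.1 hT.2.1 hT.2.2
      rw [sum_congr rfl e, sum_neg_distrib]
      have h5 := (h.b A hlA).2 hA
      rw [r_zero h hl hc (Or.inr hA) hlA, z_valr h hl hc hA hlA] at h5
      intro h6
      have h7 : (J 21 o3 A 1 1 3 * cc l) ^ 2 = 0 := by linarith
      exact mul_ne_zero hJ hcc (pow_eq_zero_iff (two_ne_zero)|>.1 h7)
  · exact absurd (J_zero 21 o3 1 1 3 (by omega)) hJ

end Pool.Agent.N218.RQ.F21
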