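import Pool.Agent.N218.RQ.Fac15
import Pool.Agent.N975.RQ.DuE
import Pool.Agent.N974.RQ.C1D
import Pool.Agent.N871.P15.Fin
import Pool.Agent.N877.P15.SR
import Pool.Agent.N218.RQ.Val21
import Pool.Agent.N969.RQ.Defs6

/-!
# RQ: the values of the definite sums, FAC15, NV15
-/

set_option autoImplicit false

open Finset

namespace Pool.Agent.N218.RQ.F15

open Pool.Agent.N969.RQ
open Pool.Agent.N969.P15 (un V3 tw Qc cc rr cp cp3 Cls0 vec ip)
open Pool.Agent.N970.RQ (nn_facts' Un_ndvd)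
open Pool.Agent.N969.P17G (chP)
open Pool.Agent.N218.RQ.F21 (J_zero)

theorem cc_ne {l : ℕ} (hl : l.Prime) (hc : Cls0 l) : cc l ≠ 0 := by
  obtain ⟨y, h1, h2⟩ := Pool.Agent.N871.P15.s_PAR l hc
  have h3 : Odd y := h2.2 (qc_prime hl)
  rw [h1]
  refine mul_ne_zero (by positivity) ?_
  rintro rfl
  simp at h3

theorem rr_ne {l : ℕ} (hl : l.Prime) (hc : Cls0 l) : rr l ≠ 0 := by
  obtain ⟨a1, a2, a3, a4⟩ := cls hc
  obtain ⟨g, h1, h2⟩ := Pool.Agent.N877.P15.t_R l hc.1 a1 a3 a4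
  have h3 : Odd g := h2.2 (qc_prime hl)
  rw [h1]
  refine mul_ne_zero (by positivity) ?_
  rintro rfl
  simp at h3

/-- auxiliary primes exist -/
theorem exists_l (D : ℕ) (hD : 0 < D) : ∃ l : ℕ, l.Prime ∧ Cls0 l ∧ ¬ l ∣ D := by
  obtain ⟨l, h1, h2, h3⟩ := Nat.forall_exists_prime_gt_and_eq_mod (q := 60) (a := (23 : ZMod 60))
    ((ZMod.isUnit_iff_coprime 23 60).2 (by norm_num)) D
  have h4 : l % 60 = 23 := by
    have h5 : ((l : ℕ) : ZMod 60) = ((23 : ℕ) : ZMod 60) := by rw [h3]; rfl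
    rw [ZMod.natCast_eq_natCast_iff'] at h5
    exact h5
  refine ⟨l, h2, ⟨h2.squarefree, Or.inl h4⟩, fun h => ?_⟩
  exact absurd (Nat.le_of_dvd hD h) (by omega)

/-- the definite side for one auxiliary prime -/
structure Df (l : ℕ) (Z R : ℕ → ℤ) : Prop where
  z1 : Z 1 = cc l
  r1 : R 1 = rr l
  a : ∀ D d : ℕ, (R15 D ∨ R15r D) → ¬ l ∣ D → Un D d → sgd D d = 1 → jacobiSym d 5 = 1 →
    ST 5 D l (fun t _ => o5 (t * l ^ 3) * sj D d l t *
      (cp (d * l : ℕ) t (D / d * l : ℕ) : ℤ)) = s5 d (D / d) * (R d * R (D / d)) ∧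
    (R15 D → jacobiSym d 3 = 1 → 3 * ST 15 D l (fun t _ => o5 (t * l ^ 3) * sj D d l t *
      ((cp (d * l : ℕ) t (D / d * l : ℕ) : ℤ) +
        cp3 (d * l : ℕ) t (D / d * l : ℕ))) =
          s5 d (D / d) * (3 * (R d * R (D / d)) + Z d * Z (D / d))) ∧
    (R15r D → (jacobiSym d 3 = 1 ∨ jacobiSym (D / d : ℕ) 3 = 1) →
      6 * ST 15 D l (fun t _ => o5 (t * l ^ 3) * sj D d l t *
        (cp (d * l : ℕ) t (D / d * l : ℕ) : ℤ)) =
        s5 d (D / d) * (3 * (R d * R (D / d)) + Z d * Z (D / d)))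
  b : ∀ A : ℕ, ¬ l ∣ A →
    (R15 A → 144 * ∑ T ∈ (range (A * l)).filter (fun T => 5 ∣ T ∧ 3 ∣ A * l - T),
      sl A l T * ld15 (A * l) T = 3 * R A ^ 2 + Z A ^ 2) ∧
    (R15r A → 144 * ∑ T ∈ (range (A * l)).filter (fun T => 5 ∣ T ∧ ¬ 3 ∣ T),
      sl A l T * ld15r (A * l) T = 9 * R A ^ 2 - Z A ^ 2)

variable {l : ℕ} {Z R : ℕ → ℤ}

theorem s5_sq (a b : ℕ) : s5 a b * s5 a b = 1 := by
  unfold s5
  split_ifs <;> norm_num

theorem s5_ne (a b : ℕ) : s5 a b ≠ 0 := fun h => by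
  have := s5_sq a b
  rw [h] at this
  norm_num at this

theorem s5_one (D : ℕ) : s5 1 D = 1 := by
  unfold s5
  rw [if_neg]
  omega

theorem rr_zero (h : Df l Z R) (hl : l.Prime) (hc : Cls0 l) {D d : ℕ} (hD : R15 D ∨ R15r D)
    (hlD : ¬ l ∣ D) (hd : Un D d) (hs : sgd D d = 1) (h5 : jacobiSym d 5 = 1) :
    R d * R (D / d) = 0 := by
  have hF : Fd D ∧ jacobiSym D 5 = 1 := by
    rcases hD with h | h
    · exact ⟨h.1, h.2.2⟩
    · exact ⟨h.1, h.2.2⟩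
  obtain ⟨a1, a2, a3, a4⟩ := cls hc
  have h1 := s_EISJ5p Pool.Agent.N816.RQ.t_C2Jpp D d l hF.1 (jac5' hF.2) hd hs hl a1 hlD (by
      have e : (-((d * l : ℕ) : ℤ)) = (-1) * (d * l) := by push_cast; ring
      rw [e, jacobiSym.mul_left, jacobiSym.mul_left, h5, jac5n a3,
        show jacobiSym (-1) 5 = 1 by norm_num]
      norm_num)
  rw [(h.a D d hD hlD hd hs h5).1] at h1
  exact (mul_eq_zero.1 h1).resolve_left (s5_ne _ _)

/-- the product of the definite sums -/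
theorem zz (h : Df l Z R) (hl : l.Prime) (hc : Cls0 l) {D d : ℕ} (hD : R15 D)
    (hlD : ¬ l ∣ D) (hd : Un D d) (hs : sgd D d = 1) (h5 : jacobiSym d 5 = 1)
    (h3 : jacobiSym d 3 = 1) :
    s5 d (D / d) * (Z d * Z (D / d)) = -4 * (J 15 o5 D d 1 3 * cc l ^ 2) := by
  have h1 := rr_zero h hl hc (Or.inl hD) hlD hd hs h5
  have h2 := (h.a D d (Or.inl hD) hlD hd hs h5).2.1 hD h3
  have h3 := key hD hd hs h5 h3 hl hc hlD
  rw [h2, h1, mul_zero, zero_add] at h3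
  exact h3

theorem zzr (h : Df l Z R) (hl : l.Prime) (hc : Cls0 l) {D d : ℕ} (hD : R15r D)
    (hlD : ¬ l ∣ D) (hd : Un D d) (hs : sgd D d = 1) (h5 : jacobiSym d 5 = 1)
    (h3 : jacobiSym d 3 = 1 ∨ jacobiSym (D / d : ℕ) 3 = 1) :
    s5 d (D / d) * (Z d * Z (D / d)) = -8 * (J 15 o5 D d 1 3 * cc l ^ 2) := by
  have h1 := rr_zero h hl hc (Or.inr hD) hlD hd hs h5
  have h2 := (h.a D d (Or.inr hD) hlD hd hs h5).2.2 hD h3
  have h3 := keyr hD hd hs h5 h3 hl hc hlD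
  rw [h2, h1, mul_zero, zero_add] at h3
  exact h3

theorem r_zero (h : Df l Z R) (hl : l.Prime) (hc : Cls0 l) {D : ℕ} (hD : R15 D ∨ R15r D)
    (hlD : ¬ l ∣ D) : R D = 0 := by
  have h1 := rr_zero h hl hc hD hlD (un_one D) (sgd_one D) (by norm_num)
  rw [Nat.div_one, h.r1] at h1
  rcases mul_eq_zero.1 h1 with h2 | h2
  · exact absurd h2 (rr_ne hl hc)
  · exact h2

theorem z_val (h : Df l Z R) (hl : l.Prime) (hc : Cls0 l) {D : ℕ} (hD : R15 D)
    (hlD : ¬ l ∣ D) : Z D = -4 * (J 15 o5 D 1 1 3 * cc l) := by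
  have h1 := zz h hl hc hD hlD (un_one D) (sgd_one D) (by norm_num) (by norm_num)
  rw [Nat.div_one, h.z1, s5_one, one_mul] at h1
  apply mul_left_cancel₀ (cc_ne hl hc)
  rw [h1]
  ring

theorem z_valr (h : Df l Z R) (hl : l.Prime) (hc : Cls0 l) {D : ℕ} (hD : R15r D)
    (hlD : ¬ l ∣ D) : Z D = -8 * (J 15 o5 D 1 1 3 * cc l) := by
  have h1 := zzr h hl hc hD hlD (un_one D) (sgd_one D) (by norm_num) (Or.inl (by norm_num))
  rw [Nat.div_one, h.z1, s5_one, one_mul] at h1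
  apply mul_left_cancel₀ (cc_ne hl hc)
  rw [h1]
  ring

theorem df_of (hB : S_BILJ15c) (hl : l.Prime) (hc : Cls0 l) : ∃ Z R : ℕ → ℤ, Df l Z R := by
  obtain ⟨Z, R, h1, h2, h3, h4⟩ := hB l hl hc
  exact ⟨Z, R, h1, h2, h3, h4⟩

/-- **FAC15** -/
theorem s_FAC15 (hB : S_BILJ15c) : S_FAC15c := by
  intro D d hD hd hs h1 h2 h5 h3 h3'
  have hF : Fd D ∧ jacobiSym D 5 = 1 := by
    rcases hD with h | h
    · exact ⟨h.1, h.2.2⟩
    · exact ⟨h.1, h.2.2⟩
  obtain ⟨hprod, hD0, hd0, he0, he5, -⟩ := aux (l := 0) hF.1 hF.2 hd h5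
  obtain ⟨Fd1, Fe1⟩ := fd_both hF.1 hd hs h1 h2
  obtain ⟨l, hl, hc, hlD⟩ := exists_l D hD0
  obtain ⟨hld, hle⟩ := Un_ndvd hd hlD
  obtain ⟨Z, R, h⟩ := df_of hB hl hc
  have hcc := cc_ne hl hc
  have p3 : Nat.Prime 3 := by norm_num
  have tri : ∀ n : ℕ, jacobiSym n 3 ≠ -1 → ¬ 3 ∣ n → n % 3 = 1 := by
    intro n hn h3n
    rcases (by omega : n % 3 = 0 ∨ n % 3 = 1 ∨ n % 3 = 2) with h6 | h6 | h6
    · omega
    · exact h6
    · exact absurd (jac3n h6) hn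
  rcases hD with hD | hD
  · have h3D : ¬ 3 ∣ D := by have := hD.2.1; omega
    have a1 := tri d h3 (fun h6 => h3D (h6.trans hd.1))
    have a2 := tri (D / d) h3' (fun h6 => h3D (h6.trans (Nat.div_dvd_of_dvd hd.1)))
    have b1 := zz h hl hc hD hlD hd hs h5 (jac3 a1)
    rw [z_val h hl hc (D := d) ⟨Fd1, a1, h5⟩ hld, z_val h hl hc (D := D / d) ⟨Fe1, a2, he5⟩ hle] at b1
    have h6 : (4 * cc l ^ 2) ≠ 0 := mul_ne_zero (by norm_num) (pow_ne_zero 2 hcc)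
    apply mul_left_cancel₀ h6
    linear_combination b1
  · have h3D : 3 ∣ d * (D / d) := by rw [hprod]; exact hD.2.1
    have h7 : (8 * cc l ^ 2) ≠ 0 := mul_ne_zero (by norm_num) (pow_ne_zero 2 hcc)
    rcases (Nat.Prime.dvd_mul p3).1 h3D with h6 | h6
    · have h3e : ¬ 3 ∣ D / d := fun h8 => by
        have := Nat.dvd_gcd h6 h8
        have hcop : Nat.gcd d (D / d) = 1 := hd.2
        rw [hcop] at this
        omega
      have a2 := tri (D / d) h3' h3e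
      have b1 := zzr h hl hc hD hlD hd hs h5 (Or.inr (jac3 a2))
      rw [z_valr h hl hc (D := d) ⟨Fd1, h6, h5⟩ hld, z_val h hl hc (D := D / d) ⟨Fe1, a2, he5⟩ hle]
        at b1
      apply mul_left_cancel₀ h7
      linear_combination b1
    · have h3e : ¬ 3 ∣ d := fun h8 => by
        have := Nat.dvd_gcd h8 h6
        have hcop : Nat.gcd d (D / d) = 1 := hd.2
        rw [hcop] at this
        omega
      have a2 := tri d h3 h3e
      have b1 := zzr h hl hc hD hlD hd hs h5 (Or.inl (jac3 a2))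
      rw [z_val h hl hc (D := d) ⟨Fd1, a2, h5⟩ hld, z_valr h hl hc (D := D / d) ⟨Fe1, h6, he5⟩ hle]
        at b1
      apply mul_left_cancel₀ h7
      linear_combination b1

/-- **NV15** -/
theorem s_NV15 (hB : S_BILJ15c) : S_NV15 := by
  intro A hJ
  by_cases hA0 : 0 < A
  · obtain ⟨l, hl, hc, hlA⟩ := exists_l A hA0
    obtain ⟨Z, R, h⟩ := df_of hB hl hc
    have hcc := cc_ne hl hc
    obtain ⟨c1, c2, c3, c4⟩ := cls hc
    have hl3 : l ≠ 3 := by omega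
    have hl5 : l ≠ 5 := by omega
    have p3 : Nat.Prime 3 := by norm_num
    have p5 : Nat.Prime 5 := by norm_num
    have n5 : ∀ n : ℕ, jacobiSym n 5 = 1 → ¬ 5 ∣ n := fun n hn => jac_ne p5 (by rw [hn]; norm_num)
    refine ⟨l, hl, hc, hlA, fun hA => ?_, fun hA => ?_⟩
    · have h3A : ¬ 3 ∣ A := by have := hA.2.1; omega
      rw [Pool.Agent.N974.RQ.t_C1D 3 5 A l p3 p5 (by norm_num) (by norm_num)
        (by norm_num) hA.1 hl c1 hl3 hl5 hlA (n5 A hA.2.2) h3A]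
      have e : ∀ T ∈ (range (A * l)).filter (fun T => 5 ∣ T ∧ 3 ∣ A * l - T),
          WD 3 5 A l (A * l - T) T = - (sl A l T * ld15 (A * l) T) := by
        intro T hT
        rw [mem_filter, mem_range] at hT
        have hT0 : 0 < T := by
          rcases Nat.eq_zero_or_pos T with h0 | h0
          · exfalso
            rw [h0, Nat.sub_zero] at hT
            rcases (Nat.Prime.dvd_mul p3).1 hT.2.2 with h5 | h5
            · exact h3A h5
            · exact hl3 ((Nat.prime_dvd_prime_iff_eq p3 hl).1 h5).symm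
          · exact h0
        exact Pool.Agent.N975.RQ.Du.t_C2D15 A l hA hl hc hlA T hT0 hT.1 hT.2.1 hT.2.2
      rw [sum_congr rfl e, sum_neg_distrib]
      have h5 := (h.b A hlA).1 hA
      rw [r_zero h hl hc (Or.inl hA) hlA, z_val h hl hc hA hlA] at h5
      intro h6
      have h7 : (J 15 o5 A 1 1 3 * cc l) ^ 2 = 0 := by linarith
      exact mul_ne_zero hJ hcc (pow_eq_zero_iff (two_ne_zero)|>.1 h7)
    · rw [Pool.Agent.N974.RQ.t_C1Dr 3 5 A l p3 p5 (by norm_num) (by norm_num)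
        (by norm_num) hA.1 hl c1 hl3 hl5 hlA (n5 A hA.2.2) hA.2.1]
      have e : ∀ T ∈ (range (A * l)).filter (fun T => 5 ∣ T ∧ ¬ 3 ∣ T),
          WDr 3 5 A l (A * l - T) T = - (sl A l T * ld15r (A * l) T) := by
        intro T hT
        rw [mem_filter, mem_range] at hT
        have hT0 : 0 < T := Nat.pos_of_ne_zero fun h0 => hT.2.2 (by rw [h0]; exact dvd_zero 3)
        exact Pool.Agent.N975.RQ.Du.t_C2D15r A l hA hl hc hlA T hT0 hT.1 hT.2.1 hT.2.2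
      rw [sum_congr rfl e, sum_neg_distrib]
      have h5 := (h.b A hlA).2 hA
      rw [r_zero h hl hc (Or.inr hA) hlA, z_valr h hl hc hA hlA] at h5
      intro h6
      have h7 : (J 15 o5 A 1 1 3 * cc l) ^ 2 = 0 := by linarith
      exact mul_ne_zero hJ hcc (pow_eq_zero_iff (two_ne_zero)|>.1 h7)
  · exact absurd (J_zero 15 o5 1 1 3 (by omega)) hJ

end Pool.Agent.N218.RQ.F15
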