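import Pool.Agent.N218.RQ.Val21
import Pool.Agent.N218.RQ.Val15

/-!
# RQ: the values of the dual sums in terms of the crossing numbers
-/

set_option autoImplicit false

open Finset

namespace Pool.Agent.N218.RQ

open Pool.Agent.N969.RQ

/-- the dual sum at level `21` -/
theorem dual21 (hB : S_BILJ21) {A l : ℕ} (hA : R21 A) (hl : l.Prime) (hc : N877.P21.Cls0 l)
    (hlA : ¬ l ∣ A) :
    576 * ∑ T ∈ (range (A * l)).filter (fun T => 3 ∣ T ∧ 7 ∣ A * l - T),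
      sl A l T * ld21 (A * l) T = 16 * J 21 o3 A 1 1 3 ^ 2 * N877.P21.cc l ^ 2 := by
  obtain ⟨Z, R, h⟩ := F21.df_of hB hl hc
  rw [(h.b A hlA).1 hA, F21.r_zero h hl hc (Or.inl hA) hlA, F21.z_val h hl hc hA hlA]
  ring

/-- the dual sum at level `21`, `7` ramified -/
theorem dual21r (hB : S_BILJ21) {A l : ℕ} (hA : R21r A) (hl : l.Prime) (hc : N877.P21.Cls0 l)
    (hlA : ¬ l ∣ A) :
    576 * ∑ T ∈ (range (A * l)).filter (fun T => 3 ∣ T ∧ ¬ 7 ∣ T),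
      sl A l T * ld21r (A * l) T = -64 * J 21 o3 A 1 1 3 ^ 2 * N877.P21.cc l ^ 2 := by
  obtain ⟨Z, R, h⟩ := F21.df_of hB hl hc
  rw [(h.b A hlA).2 hA, F21.r_zero h hl hc (Or.inr hA) hlA, F21.z_valr h hl hc hA hlA]
  ring

/-- the dual sum at level `15` -/
theorem dual15 (hB : S_BILJ15c) {A l : ℕ} (hA : R15 A) (hl : l.Prime)
    (hc : Pool.Agent.N969.P15.Cls0 l) (hlA : ¬ l ∣ A) :
    144 * ∑ T ∈ (range (A * l)).filter (fun T => 5 ∣ T ∧ 3 ∣ A * l - T),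
      sl A l T * ld15 (A * l) T = 16 * J 15 o5 A 1 1 3 ^ 2 * Pool.Agent.N969.P15.cc l ^ 2 := by
  obtain ⟨Z, R, h⟩ := F15.df_of hB hl hc
  rw [(h.b A hlA).1 hA, F15.r_zero h hl hc (Or.inl hA) hlA, F15.z_val h hl hc hA hlA]
  ring

/-- the dual sum at level `15`, `3` ramified -/
theorem dual15r (hB : S_BILJ15c) {A l : ℕ} (hA : R15r A) (hl : l.Prime)
    (hc : Pool.Agent.N969.P15.Cls0 l) (hlA : ¬ l ∣ A) :
    144 * ∑ T ∈ (range (A * l)).filter (fun T => 5 ∣ T ∧ ¬ 3 ∣ T),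
      sl A l T * ld15r (A * l) T = -64 * J 15 o5 A 1 1 3 ^ 2 * Pool.Agent.N969.P15.cc l ^ 2 := by
  obtain ⟨Z, R, h⟩ := F15.df_of hB hl hc
  rw [(h.b A hlA).2 hA, F15.r_zero h hl hc (Or.inr hA) hlA, F15.z_valr h hl hc hA hlA]
  ring

end Pool.Agent.N218.RQ
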