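import Pool.Agent.N970.RQ.Eis7
import Pool.Agent.N878.PC21.XC
import Pool.Agent.N972.PC15.XC

/-!
# RQ: EISJ3p, EISJ5p, and the comparison of sums over `t` for all auxiliary primes
-/

set_option autoImplicit false

open Finset

namespace Pool.Agent.N218.RQ

open Pool.Agent.N969.RQ
open Pool.Agent.N969.P15 (un V3 tw)
open Pool.Agent.N970.RQ (nn_facts' Un_ndvd sj_neg ST_odd corep)

theorem o3_neg (a : ℤ) : o3 (-a) = - o3 a := by
  unfold o3
  have : (-a) = (-1) * a := by ring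
  rw [this, jacobiSym.mul_left, show jacobiSym (-1) 3 = -1 by norm_num]
  ring

theorem o5_neg (a : ℤ) : o5 (-a) = - o5 a := by
  unfold o5
  split_ifs <;> omega

theorem op3 : op 3 = o3 := by
  unfold op
  rw [if_neg (by norm_num), if_pos rfl]

theorem op5 : op 5 = o5 := by
  unfold op
  rw [if_pos rfl]

theorem cp21_neg (a b c : ℤ) : N877.P21.cp a (-b) c = N877.P21.cp a b c := by
  have h : ∀ (n : ℤ) (v : V3), v ∈ N877.P21.vec n → -v ∈ N877.P21.vec n := by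
    intro n v hv
    unfold N877.P21.vec at hv ⊢
    rw [mem_filter, Fintype.mem_piFinset] at hv ⊢
    refine ⟨fun i => ?_, ?_⟩
    · have := Finset.mem_Icc.1 (hv.1 i)
      rw [Finset.mem_Icc, Pi.neg_apply]
      omega
    · rw [← hv.2]
      unfold N877.P21.ip
      simp only [Pi.neg_apply]
      ring
  unfold N877.P21.cp
  refine card_nbij' (fun q => (-q.1, q.2)) (fun q => (-q.1, q.2)) ?_ ?_ ?_ ?_
  · rintro ⟨v, w⟩ hq
    rw [Finset.mem_coe, mem_filter, mem_product] at hq ⊢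
    refine ⟨⟨h _ _ hq.1.1, hq.1.2⟩, ?_⟩
    have := hq.2
    unfold N877.P21.ip at this ⊢
    simp only [Pi.neg_apply]
    linarith
  · rintro ⟨v, w⟩ hq
    rw [Finset.mem_coe, mem_filter, mem_product] at hq ⊢
    refine ⟨⟨h _ _ hq.1.1, hq.1.2⟩, ?_⟩
    have := hq.2
    unfold N877.P21.ip at this ⊢
    simp only [Pi.neg_apply]
    linarith
  · rintro ⟨v, w⟩ _
    simp
  · rintro ⟨v, w⟩ _
    simp

theorem cp15_neg (a b c : ℤ) : Pool.Agent.N969.P15.cp a (-b) c = Pool.Agent.N969.P15.cp a b c := by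
  have h : ∀ (n : ℤ) (v : V3), v ∈ Pool.Agent.N969.P15.vec n → -v ∈ Pool.Agent.N969.P15.vec n := by
    intro n v hv
    unfold Pool.Agent.N969.P15.vec at hv ⊢
    rw [mem_filter, Fintype.mem_piFinset] at hv ⊢
    refine ⟨fun i => ?_, ?_⟩
    · have := Finset.mem_Icc.1 (hv.1 i)
      rw [Finset.mem_Icc, Pi.neg_apply]
      omega
    · rw [← hv.2]
      unfold Pool.Agent.N969.P15.ip
      simp only [Pi.neg_apply]
      ring
  unfold Pool.Agent.N969.P15.cp
  refine card_nbij' (fun q => (-q.1, q.2)) (fun q => (-q.1, q.2)) ?_ ?_ ?_ ?_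
  · rintro ⟨v, w⟩ hq
    rw [Finset.mem_coe, mem_filter, mem_product] at hq ⊢
    refine ⟨⟨h _ _ hq.1.1, hq.1.2⟩, ?_⟩
    have := hq.2
    unfold Pool.Agent.N969.P15.ip at this ⊢
    simp only [Pi.neg_apply]
    linarith
  · rintro ⟨v, w⟩ hq
    rw [Finset.mem_coe, mem_filter, mem_product] at hq ⊢
    refine ⟨⟨h _ _ hq.1.1, hq.1.2⟩, ?_⟩
    have := hq.2
    unfold Pool.Agent.N969.P15.ip at this ⊢
    simp only [Pi.neg_apply]
    linarith
  · rintro ⟨v, w⟩ _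
    simp
  · rintro ⟨v, w⟩ _
    simp

/-- **EISJ3p** -/
theorem s_EISJ3p (hC2 : S_C2Jpp) : S_EISJ3p := by
  intro D d l hD hD3 hd hs hl hl4 hl3 hlD hdl
  have hDp : jacobiSym D 3 = 1 := by
    have : jacobiSym D 3 = jacobiSym 1 3 := by
      apply jacobiSym.mod_left'
      omega
    rw [this, jacobiSym.one_left]
  have h3l : ¬ (3 : ℤ) ∣ l := fun h => by
    have h' : 3 ∣ l := by exact_mod_cast h
    exact hl3 ((Nat.prime_dvd_prime_iff_eq Nat.prime_three hl).1 h').symm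
  have := corep (p := 3) (κ := 12) (li := (l : ℤ)) (c := N877.P21.cp) sym21 cp21_neg
    (fun n1 n2 b m h1 h2 h3 h4 h5 => N878.PC21.t_PC n1 n2 b m h1 h2 h3 h4 h5)
    Pool.Agent.N975.RQ.t_LOW Pool.Agent.N975.RQ.t_C1Jp hC2
    (Or.inl rfl) hD hDp hd hs hl hl4 hl3 hlD hdl
    (fun a b h => by rw [op3]; exact o3_mod a b h) (fun a => by rw [op3]; exact o3_neg a) (by
      push_cast
      have h5 : (l : ℤ) % 3 = 1 ∨ (l : ℤ) % 3 = 2 := by omega
      have h6 : ((l : ℤ) * l) % 3 = 1 := by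
        rcases h5 with h | h <;> rw [Int.mul_emod, h] <;> norm_num
      omega)
  rw [op3] at this
  exact this

/-- **EISJ5p** -/
theorem s_EISJ5p (hC2 : S_C2Jpp) : S_EISJ5p := by
  intro D d l hD hD5 hd hs hl hl4 hlD hdl
  have hDp : jacobiSym D 5 = 1 := by
    rcases hD5 with h | h
    · have : jacobiSym D 5 = jacobiSym 1 5 := by
        apply jacobiSym.mod_left'
        omega
      rw [this, jacobiSym.one_left]
    · have : jacobiSym D 5 = jacobiSym 4 5 := by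
        apply jacobiSym.mod_left'
        omega
      rw [this]
      norm_num
  have hl5 : l ≠ 5 := by rintro rfl; omega
  have h5l : ¬ (5 : ℤ) ∣ l := fun h => by
    have h' : 5 ∣ l := by exact_mod_cast h
    exact hl5 ((Nat.prime_dvd_prime_iff_eq Nat.prime_five hl).1 h').symm
  have := corep (p := 5) (κ := 6) (li := (l : ℤ) ^ 3) (c := Pool.Agent.N969.P15.cp) sym15 cp15_neg
    (fun n1 n2 b m h1 h2 h3 h4 h5 => Pool.Agent.N972.PC15.t_PC n1 n2 b m h1 h2 h3 h4 h5)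
    Pool.Agent.N975.RQ.t_LOW Pool.Agent.N975.RQ.t_C1Jp hC2
    (Or.inr (Or.inl rfl)) hD hDp hd hs hl hl4 hl5 hlD hdl
    (fun a b h => by rw [op5]; exact o5_mod a b h) (fun a => by rw [op5]; exact o5_neg a) (by
      push_cast
      have h5 : (l : ℤ) % 5 = 1 ∨ (l : ℤ) % 5 = 2 ∨ (l : ℤ) % 5 = 3 ∨ (l : ℤ) % 5 = 4 := by omega
      have h7 : ((l : ℤ) * l ^ 3) % 5 = 1 := by
        obtain ⟨k, hk⟩ : ∃ k : ℤ, (l : ℤ) = 5 * k + (l : ℤ) % 5 := ⟨(l : ℤ) / 5, by omega⟩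
        have e : (l : ℤ) * l ^ 3 = 5 * (k * (125 * k ^ 3 + 100 * k ^ 2 * ((l : ℤ) % 5) +
          30 * k * ((l : ℤ) % 5) ^ 2 + 4 * ((l : ℤ) % 5) ^ 3)) + ((l : ℤ) % 5) ^ 4 := by
          generalize (l : ℤ) % 5 = r at hk
          rw [hk]
          ring
        rw [e]
        rcases h5 with h | h | h | h <;> rw [h] <;> omega
      omega)
  rw [op5] at this
  exact this

/-! ### comparison of sums over `t` -/

/-- no roots if `(D / l) = -1` -/
theorem rho_zero {l a a' : ℕ} {t : ℤ} {D : ℤ} (hl : l.Prime) (hl2 : l ≠ 2) (h : t ^ 2 + 4 * a * a' = D)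
    (hD : jacobiSym D l = -1) : rho l a a' t = 0 := by
  unfold rho
  rw [filter_eq_empty_iff.2, sum_empty]
  intro u _ hu
  have hFl : Fact l.Prime := ⟨hl⟩
  have h1 : ((D : ℤ) : ZMod l) = ((2 * a * u - t : ℤ) : ZMod l) ^ 2 := by
    obtain ⟨k, hk⟩ := hu
    have e : D = (2 * a * u - t) ^ 2 - 4 * a * (l * k) := by
      rw [← h, ← hk]
      ring
    rw [e]
    push_cast
    rw [ZMod.natCast_self]
    ring
  rw [← jacobiSym.legendreSym.to_jacobiSym] at hD
  exact (legendreSym.eq_neg_one_iff l).1 hD ⟨_, by rw [h1, pow_two]⟩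

/-- the sum of the divisor sums with `l ∣ t` is empty if `(D / l) = -1` -/
theorem Wp_zero {N D d l : ℕ} {t : ℤ} {m : ℕ} (hl : l.Prime) (hl2 : l ≠ 2)
    (hDl : jacobiSym D l = -1) (ht : (l : ℤ) ∣ t) (hm : (m : ℤ) = D * l ^ 2 - t ^ 2)
    (h4 : 4 ∣ m) : Wp N D d l t m = 0 := by
  unfold Wp
  rw [if_pos ht, sum_eq_zero, mul_zero]
  intro a ha
  rw [rho_zero (D := D) hl hl2 _ hDl, mul_zero]
  obtain ⟨k, hk⟩ := ht
  have hl0 : (l : ℤ) ≠ 0 := by exact_mod_cast hl.ne_zero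
  rw [mem_filter, Nat.mem_divisors] at ha
  have h1 : t / l = k := by rw [hk, Int.mul_ediv_cancel_left _ hl0]
  have h2 : (4 * l ^ 2) ∣ m := by
    have h3 : l ^ 2 ∣ m := by
      have : ((l ^ 2 : ℕ) : ℤ) ∣ (m : ℤ) := ⟨D - k ^ 2, by rw [hm, hk]; push_cast; ring⟩
      exact_mod_cast this
    have h5 : Nat.Coprime 4 (l ^ 2) := by
      rw [show (4 : ℕ) = 2 ^ 2 from rfl]
      exact Nat.Coprime.pow 2 2 ((Nat.coprime_primes Nat.prime_two hl).2 (Ne.symm hl2))
    exact h5.mul_dvd_of_dvd_of_dvd h4 h3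
  obtain ⟨M, hM⟩ := h2
  have hM' : m / (4 * l ^ 2) = M := by
    rw [hM]
    exact Nat.mul_div_cancel_left _ (by have := hl.pos; positivity)
  rw [hM'] at ha ⊢
  obtain ⟨c, hc⟩ := ha.1.1
  have ha0 : 0 < a := Nat.pos_of_ne_zero fun h => ha.1.2 (by rw [hc, h, zero_mul])
  have h6 : M / a = c := by rw [hc]; exact Nat.mul_div_cancel_left _ ha0
  rw [h6, h1]
  have h7 : ((4 * l ^ 2 * M : ℕ) : ℤ) = D * l ^ 2 - (l * k) ^ 2 := by rw [← hM, hm, hk]
  push_cast at h7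
  rw [hc] at h7
  push_cast at h7
  have hl2' : ((l : ℤ)) ^ 2 ≠ 0 := pow_ne_zero 2 hl0
  apply mul_left_cancel₀ hl2'
  linear_combination h7

theorem st_rel {N D d l : ℕ} {w : ℤ → ℤ} {li κ : ℤ} {c : ℤ → ℤ} (hd : Un D d) (hl : l.Prime)
    (hl4 : l % 4 = 3) (hlD : ¬ l ∣ D) (hwn : ∀ a, w (-a) = - w a) (hcn : ∀ t, c (-t) = c t)
    (hterm : ∀ (t : ℤ) (m : ℕ), 0 < m → (m : ℤ) = D * l ^ 2 - t ^ 2 → 4 * N ∣ m →
      (¬ (l : ℤ) ∣ t ∨ jacobiSym D l = 1) → sj D d l t * c t = -κ * Wp N D d l t m) :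
    Pool.Agent.N969.RQ.ST N D l (fun t _ => w (t * li) * sj D d l t * c t) =
      -κ * Pool.Agent.N969.RQ.ST N D l (fun t m => w (t * li) * Wp N D d l t m) := by
  have hl2 : l ≠ 2 := by rintro rfl; omega
  have e1 : Pool.Agent.N969.RQ.ST N D l (fun t _ => w (t * li) * sj D d l t * c t) -
      (-κ * Pool.Agent.N969.RQ.ST N D l (fun t m => w (t * li) * Wp N D d l t m)) =
      Pool.Agent.N969.RQ.ST N D l (fun t _ => if (l : ℤ) ∣ t ∧ jacobiSym D l = -1 then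
        w (t * li) * sj D d l t * c t else 0) := by
    unfold Pool.Agent.N969.RQ.ST
    rw [mul_sum, ← sum_sub_distrib]
    refine sum_congr rfl fun t ht => ?_
    rw [mem_filter] at ht
    obtain ⟨-, ht1, ht2⟩ := ht
    set m : ℕ := (((D * l ^ 2 : ℕ) : ℤ) - t ^ 2).toNat with hm
    have hmz : (m : ℤ) = ((D * l ^ 2 : ℕ) : ℤ) - t ^ 2 := Int.toNat_of_nonneg (by linarith)
    have hm0 : 0 < m := by
      have : (0 : ℤ) < m := by rw [hmz]; linarith
      exact_mod_cast this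
    have hmz' : (m : ℤ) = D * l ^ 2 - t ^ 2 := by rw [hmz]; push_cast; ring
    have h4 : 4 * N ∣ m := by
      have : ((4 * N : ℕ) : ℤ) ∣ (m : ℤ) := by rw [hmz]; exact ht2
      exact_mod_cast this
    show w (t * li) * sj D d l t * c t - (-κ * (w (t * li) * Wp N D d l t m)) =
      if (l : ℤ) ∣ t ∧ jacobiSym D l = -1 then w (t * li) * sj D d l t * c t else 0
    by_cases h : (l : ℤ) ∣ t ∧ jacobiSym D l = -1
    · rw [if_pos h, Wp_zero hl hl2 h.2 h.1 hmz' (dvd_of_mul_right_dvd h4)]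
      ring
    · rw [if_neg h]
      have h5 : ¬ (l : ℤ) ∣ t ∨ jacobiSym D l = 1 := by
        by_contra hc
        push Not at hc
        refine h ⟨hc.1, ?_⟩
        rcases jacobiSym.trichotomy D l with h6 | h6 | h6
        · exfalso
          have : NeZero l := ⟨hl.ne_zero⟩
          rw [jacobiSym.eq_zero_iff_not_coprime, Int.gcd_natCast_natCast] at h6
          exact h6 ((Nat.Prime.coprime_iff_not_dvd hl).2 hlD).symm
        · exact absurd h6 hc.2
        · exact h6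
      have h6 := hterm t m hm0 hmz' h4 h5
      linear_combination w (t * li) * h6
  have e2 : Pool.Agent.N969.RQ.ST N D l (fun t _ => if (l : ℤ) ∣ t ∧ jacobiSym D l = -1 then
        w (t * li) * sj D d l t * c t else 0) = 0 := by
    apply ST_odd (N := N) (D := D) (l := l) (f := fun t => if (l : ℤ) ∣ t ∧ jacobiSym D l = -1 then
        w (t * li) * sj D d l t * c t else 0)
    intro t
    show (if (l : ℤ) ∣ -t ∧ jacobiSym D l = -1 then w (-t * li) * sj D d l (-t) * c (-t) else 0) =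
      - (if (l : ℤ) ∣ t ∧ jacobiSym D l = -1 then w (t * li) * sj D d l t * c t else 0)
    by_cases h : (l : ℤ) ∣ t ∧ jacobiSym D l = -1
    · rw [if_pos h, if_pos ⟨dvd_neg.2 h.1, h.2⟩, neg_mul, hwn, hcn, sj_neg hd hl hl4 h.1 h.2]
      ring
    · rw [if_neg h, if_neg (fun h' => h ⟨dvd_neg.1 h'.1, h'.2⟩), neg_zero]
  rw [e2] at e1
  linarith

end Pool.Agent.N218.RQ
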